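import Mathlib
import Pool.Graph.R_seed8.R913.Adj.Semi

/-!
# The associative algebra generated by a space of endomorphisms
-/

set_option autoImplicit false

namespace Pool.Agent.H851.KT

open Module Pool.Agent.Y114.RM Polynomial

variable {k : Type} [Field k] {V : Type} [AddCommGroup V] [Module k V]

/-- the associative algebra generated by `L` -/
abbrev alg (L : Submodule k (End k V)) : Subalgebra k (End k V) :=
  Algebra.adjoin k (L : Set (End k V))

variable {L : Submodule k (End k V)}

theorem le_alg {X : End k V} (hX : X ∈ L) : X ∈ alg L := Algebra.subset_adjoin hX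

theorem alg_stable {W : Submodule k V} (h : ∀ X ∈ L, ∀ x ∈ W, X x ∈ W) :
    ∀ a ∈ alg L, ∀ x ∈ W, a x ∈ W := by
  intro a ha
  induction ha using Algebra.adjoin_induction with
  | mem X hX => exact h X hX
  | algebraMap c => exact fun x hx => W.smul_mem c hx
  | add a b _ _ h1 h2 => exact fun x hx => W.add_mem (h1 x hx) (h2 x hx)
  | mul a b _ _ h1 h2 => exact fun x hx => h1 _ (h2 x hx)

theorem alg_comm {P : End k V} (h : ∀ X ∈ L, X * P = P * X) : ∀ a ∈ alg L, a * P = P * a := by
  intro a ha
  induction ha using Algebra.adjoin_induction with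
  | mem X hX => exact h X hX
  | algebraMap c => exact Algebra.commutes c P
  | add a b _ _ h1 h2 => rw [add_mul, mul_add, h1, h2]
  | mul a b _ _ h1 h2 => rw [mul_assoc, h2, ← mul_assoc, h1, mul_assoc]

theorem alg_conj {g g' : End k V} (hg : g * g' = 1) (hg' : g' * g = 1)
    (h : ∀ X ∈ L, AdE g g' X ∈ L) : ∀ a ∈ alg L, AdE g g' a ∈ alg L := by
  intro a ha
  induction ha using Algebra.adjoin_induction with
  | mem X hX => exact le_alg (h X hX)
  | algebraMap c =>
    rw [AdE_apply, Algebra.commutes c g', ← mul_assoc, hg, one_mul]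
    exact (alg L).algebraMap_mem c
  | add a b _ _ h1 h2 => rw [map_add]; exact (alg L).add_mem h1 h2
  | mul a b _ _ h1 h2 =>
    have e : AdE g g' (a * b) = AdE g g' a * AdE g g' b := by
      rw [AdE_apply, AdE_apply, AdE_apply]
      simp only [mul_assoc]
      rw [← mul_assoc g' g, hg', one_mul]
    rw [e]
    exact (alg L).mul_mem h1 h2

/-- a subspace stable under `L`, as a module -/
def toSub (W : Submodule k V) (h : ∀ X ∈ L, ∀ x ∈ W, X x ∈ W) : Submodule (alg L) V where
  carrier := W
  add_mem' := fun ha hb => W.add_mem ha hb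
  zero_mem' := W.zero_mem
  smul_mem' := fun a x hx => alg_stable h a.1 a.2 x hx

theorem mem_toSub {W : Submodule k V} {h : ∀ X ∈ L, ∀ x ∈ W, X x ∈ W} {x : V} :
    x ∈ toSub W h ↔ x ∈ W := Iff.rfl

section semi

variable [FiniteDimensional k V] {Γ : Type} [Group Γ] (r : Representation k Γ V)

/-- transport of submodules -/
def tr (hAd : ∀ γ, ∀ X ∈ L, AdE (r γ) (r γ⁻¹) X ∈ L) (γ : Γ) (N : Submodule (alg L) V) :
    Submodule (alg L) V where
  carrier := {x | r γ⁻¹ x ∈ N}
  add_mem' := fun {a b} ha hb => by
    change r γ⁻¹ (a + b) ∈ N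
    rw [map_add]
    exact N.add_mem ha hb
  zero_mem' := by
    change r γ⁻¹ 0 ∈ N
    rw [map_zero]
    exact N.zero_mem
  smul_mem' := fun a x hx => by
    change r γ⁻¹ (a.1 x) ∈ N
    have h1 := alg_conj (g := r γ⁻¹) (g' := r γ) (by rw [← map_mul, inv_mul_cancel, map_one])
      (by rw [← map_mul, mul_inv_cancel, map_one])
      (fun X hX => by have := hAd γ⁻¹ X hX; rwa [inv_inv] at this) a.1 a.2
    have h2 : r γ⁻¹ (a.1 x) = AdE (r γ⁻¹) (r γ) a.1 (r γ⁻¹ x) := by
      rw [AdE_apply, Module.End.mul_apply, Module.End.mul_apply, ← Module.End.mul_apply (r γ),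
        ← map_mul, mul_inv_cancel, map_one, Module.End.one_apply]
    rw [h2]
    exact N.smul_mem (⟨_, h1⟩ : alg L) hx

omit [FiniteDimensional k V] in
theorem mem_tr {hAd : ∀ γ, ∀ X ∈ L, AdE (r γ) (r γ⁻¹) X ∈ L} {γ : Γ} {N : Submodule (alg L) V}
    {x : V} : x ∈ tr r hAd γ N ↔ r γ⁻¹ x ∈ N := Iff.rfl

/-- transport of submodules -/
def trIso (hAd : ∀ γ, ∀ X ∈ L, AdE (r γ) (r γ⁻¹) X ∈ L) (γ : Γ) :
    Submodule (alg L) V ≃o Submodule (alg L) V where
  toFun := tr r hAd γ
  invFun := tr r hAd γ⁻¹
  left_inv := fun N => by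
    ext x
    rw [mem_tr, mem_tr, ← Module.End.mul_apply, ← map_mul, mul_inv_cancel, map_one,
      Module.End.one_apply]
  right_inv := fun N => by
    ext x
    rw [mem_tr, mem_tr, ← Module.End.mul_apply, ← map_mul, inv_mul_cancel, map_one,
      Module.End.one_apply]
  map_rel_iff' := fun {N N'} => by
    constructor
    · intro h x hx
      have h1 : r γ x ∈ tr r hAd γ N := by
        rw [mem_tr, ← Module.End.mul_apply, ← map_mul, inv_mul_cancel, map_one,
          Module.End.one_apply]
        exact hx
      have h2 : r γ x ∈ tr r hAd γ N' := h h1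
      rw [mem_tr, ← Module.End.mul_apply, ← map_mul, inv_mul_cancel, map_one,
          Module.End.one_apply] at h2
      exact h2
    · intro h x hx
      exact h hx

/-- **Semisimplicity** over the algebra generated by a stable space of endomorphisms -/
theorem alg_semisimple (hAd : ∀ γ, ∀ X ∈ L, AdE (r γ) (r γ⁻¹) X ∈ L)
    (hss : ∀ W : Submodule k V, (∀ γ, ∀ x ∈ W, r γ x ∈ W) → ∃ P : End k V,
      (∀ X ∈ L, X * P = P * X) ∧ (∀ x, P x ∈ W) ∧ ∀ x ∈ W, P x = x) :
    IsSemisimpleModule (alg L) V := by
  set S : Submodule (alg L) V := sSup {N | IsAtom N} with hS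
  have hinv : ∀ γ, tr r hAd γ S = S := by
    intro γ
    have h1 : trIso r hAd γ S = sSup ((trIso r hAd γ) '' {N | IsAtom N}) := by
      rw [hS, OrderIso.map_sSup, sSup_image]
    have h2 : (trIso r hAd γ) '' {N | IsAtom N} = {N | IsAtom N} := by
      ext N
      constructor
      · rintro ⟨M, hM, rfl⟩
        exact ((trIso r hAd γ).isAtom_iff M).2 hM
      · intro hN
        refine ⟨(trIso r hAd γ).symm N, ((trIso r hAd γ).symm.isAtom_iff N).2 hN, ?_⟩
        exact (trIso r hAd γ).apply_symm_apply N
    rw [h2] at h1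
    exact h1
  have hst : ∀ γ, ∀ x ∈ S.restrictScalars k, r γ x ∈ S.restrictScalars k := by
    intro γ x hx
    have h1 : x ∈ tr r hAd γ⁻¹ S := by
      rw [hinv]
      exact hx
    rw [mem_tr, inv_inv] at h1
    exact h1
  obtain ⟨P, hP1, hP2, hP3⟩ := hss (S.restrictScalars k) hst
  have hPa := alg_comm hP1
  let Q : Submodule (alg L) V :=
    { carrier := {x | P x = 0}
      add_mem' := fun {a b} ha hb => by
        change P (a + b) = 0
        rw [map_add, ha, hb, add_zero]
      zero_mem' := map_zero P
      smul_mem' := fun a x hx => by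
        change P (a.1 x) = 0
        rw [← Module.End.mul_apply, ← hPa a.1 a.2, Module.End.mul_apply, hx, map_zero] }
  have hart : IsArtinian (alg L) V := isArtinian_of_tower k inferInstance
  have hQ : Q = ⊥ := by
    by_contra hne
    obtain ⟨a, ha, haQ⟩ := (IsAtomic.eq_bot_or_exists_atom_le Q).resolve_left hne
    have haS : a ≤ S := le_sSup ha
    apply ha.1
    rw [eq_bot_iff]
    intro x hx
    have h1 : P x = 0 := haQ hx
    rw [hP3 x (haS hx)] at h1
    exact (Submodule.mem_bot _).2 h1
  have hST : S = ⊤ := by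
    rw [eq_top_iff]
    intro x _
    have h1 : x - P x ∈ Q := by
      change P (x - P x) = 0
      rw [map_sub, hP3 _ (hP2 x), sub_self]
    rw [hQ, Submodule.mem_bot, sub_eq_zero] at h1
    rw [h1]
    exact hP2 x
  have : ComplementedLattice (Submodule (alg L) V) :=
    complementedLattice_of_sSup_atoms_eq_top (hS ▸ hST)
  exact (isSemisimpleModule_iff _ _).2 this

end semi

section cons

variable [FiniteDimensional k V]

omit [FiniteDimensional k V] in
theorem exists_proj (h : IsSemisimpleModule (alg L) V) {W : Submodule k V}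
    (hW : ∀ X ∈ L, ∀ x ∈ W, X x ∈ W) : ∃ P : End k V,
      (∀ X ∈ L, X * P = P * X) ∧ (∀ x, P x ∈ W) ∧ ∀ x ∈ W, P x = x := by
  obtain ⟨N, hN⟩ := exists_isCompl (toSub W hW)
  let P : V →ₗ[alg L] V := (toSub W hW).subtype ∘ₗ Submodule.projectionOnto (toSub W hW) N hN
  refine ⟨P.restrictScalars k, fun X hX => ?_, fun x => ?_, fun x hx => ?_⟩
  · ext x
    have := P.map_smul (⟨X, le_alg hX⟩ : alg L) x
    exact this.symm
  · exact (Submodule.projectionOnto (toSub W hW) N hN x).2
  · exact congrArg Subtype.val (Submodule.projectionOnto_apply_left hN ⟨x, hx⟩)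

/-- **Double centralizer** -/
theorem mem_alg (h : IsSemisimpleModule (alg L) V) {X : End k V}
    (hX : ∀ Y : End k V, (∀ Z ∈ L, Z * Y = Y * Z) → X * Y = Y * X) : X ∈ alg L := by
  have hfin : Module.Finite (Module.End (alg L) V) V :=
    Module.Finite.of_restrictScalars_finite k _ _
  let X' : Module.End (Module.End (alg L) V) V :=
    { toFun := X
      map_add' := map_add X
      map_smul' := fun f x => by
        have h1 := hX (f.restrictScalars k) (fun Z hZ => by
          ext x
          exact (f.map_smul (⟨Z, le_alg hZ⟩ : alg L) x).symm)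
        exact LinearMap.congr_fun h1 x }
  obtain ⟨a, ha⟩ := Module.Finite.toModuleEnd_moduleEnd_surjective (R := alg L) (M := V) X'
  have h2 : a.1 = X := by
    ext x
    exact LinearMap.congr_fun ha x
  rw [← h2]
  exact a.2

theorem alg_nondeg [CharZero k] (h : IsSemisimpleModule (alg L) V) {a : End k V} (ha : a ∈ alg L)
    (htr : ∀ b ∈ alg L, LinearMap.trace k V (a * b) = 0) : a = 0 := by
  have key : ∀ N : Submodule (alg L) V, IsAtom N → ∀ x ∈ N, a x = 0 := by
    intro N hN x hx
    by_contra hax
    have h1 : x ∈ Submodule.span (alg L) {a x} := by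
      have h2 : Submodule.span (alg L) {a x} ≤ N := by
        rw [Submodule.span_le, Set.singleton_subset_iff]
        exact N.smul_mem (⟨a, ha⟩ : alg L) hx
      have h3 : Submodule.span (alg L) {a x} = N := by
        refine (hN.le_iff.1 h2).resolve_left fun h4 => hax ?_
        rwa [Submodule.span_singleton_eq_bot] at h4
      rw [h3]
      exact hx
    obtain ⟨b, hb⟩ := Submodule.mem_span_singleton.1 h1
    have hb' : b.1 (a x) = x := hb
    set c : End k V := b.1 * a with hc
    have hcx : c x = x := hb'
    have hx0 : x ≠ 0 := by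
      rintro rfl
      exact hax (map_zero a)
    have hev : End.HasEigenvector c 1 x := by
      refine ⟨?_, hx0⟩
      rw [Module.End.mem_eigenspace_iff, one_smul, hcx]
    have hca : ∀ p : k[X], aeval c p ∈ alg L := by
      intro p
      exact Algebra.adjoin_le (S := alg L)
        (Set.singleton_subset_iff.2 ((alg L).mul_mem b.2 ha)) (aeval_mem_adjoin_singleton k c)
    -- an idempotent
    have hμ : minpoly k c ≠ 0 := minpoly.ne_zero (Algebra.IsIntegral.isIntegral c)
    obtain ⟨g, hg1, hg2⟩ := Polynomial.exists_eq_pow_rootMultiplicity_mul_and_not_dvd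
      (minpoly k c) hμ 0
    rw [map_zero, sub_zero] at hg1 hg2
    set m := (minpoly k c).rootMultiplicity 0
    have hcop : IsCoprime (X ^ (m + 1)) g := by
      refine IsCoprime.pow_left ?_
      exact (Polynomial.irreducible_X.coprime_iff_not_dvd).2 hg2
    obtain ⟨u, w, huw⟩ := hcop
    set e : End k V := aeval c (u * X ^ (m + 1)) with he
    have hgc : aeval c (X ^ m * g) = 0 := by rw [← hg1]; exact minpoly.aeval k c
    have hee : e * (1 - e) = 0 := by
      have h5 : (1 : End k V) - e = aeval c (w * g) := by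
        rw [he, ← map_one (aeval (R := k) c), ← huw, map_add, add_sub_cancel_left]
      rw [h5, he, ← map_mul]
      have h6 : u * X ^ (m + 1) * (w * g) = (u * w * X) * (X ^ m * g) := by ring
      rw [h6, map_mul, hgc, mul_zero]
    have hid : e * e = e := by
      rw [mul_sub, mul_one, sub_eq_zero] at hee
      exact hee.symm
    have htr0 : LinearMap.trace k V e = 0 := by
      have h5 : e = aeval c (u * X ^ m) * b.1 * a := by
        rw [he, pow_succ, ← mul_assoc, map_mul, aeval_X, hc, mul_assoc]
      rw [h5, LinearMap.trace_mul_comm]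
      exact htr _ ((alg L).mul_mem (hca _) b.2)
    have hproj : LinearMap.IsProj (LinearMap.range e) e := by
      refine ⟨fun x => ⟨x, rfl⟩, ?_⟩
      rintro _ ⟨y, rfl⟩
      rw [← Module.End.mul_apply, hid]
    have h7 : e = 0 := by
      have h8 := hproj.trace
      rw [htr0] at h8
      have h9 : finrank k (LinearMap.range e) = 0 := by exact_mod_cast h8.symm
      exact LinearMap.range_eq_bot.1 (Submodule.finrank_eq_zero.1 h9)
    have e1 := Module.End.aeval_apply_of_hasEigenvector (p := u * X ^ (m + 1)) hev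
    have e2 := Module.End.aeval_apply_of_hasEigenvector (p := X ^ m * g) hev
    rw [← he, h7, LinearMap.zero_apply, eval_mul, eval_pow, eval_X, one_pow, mul_one] at e1
    rw [hgc, LinearMap.zero_apply, eval_mul, eval_pow, eval_X, one_pow, one_mul] at e2
    have e3 := congrArg (eval 1) huw
    rw [eval_add, eval_mul, eval_mul, eval_pow, eval_X, one_pow, mul_one, eval_one,
      (smul_eq_zero.1 e1.symm).resolve_right hx0, (smul_eq_zero.1 e2.symm).resolve_right hx0,
      mul_zero, add_zero] at e3
    exact one_ne_zero e3.symm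
  have hS : sSup {N : Submodule (alg L) V | IsAtom N} = ⊤ := by
    have hart : IsArtinian (alg L) V := isArtinian_of_tower k inferInstance
    have : ComplementedLattice (Submodule (alg L) V) := (isSemisimpleModule_iff _ _).1 h
    exact sSup_atoms_eq_top
  ext x
  have hx : x ∈ sSup {N : Submodule (alg L) V | IsAtom N} := by
    rw [hS]
    trivial
  rw [sSup_eq_iSup'] at hx
  rw [LinearMap.zero_apply]
  refine Submodule.iSup_induction (fun N : {N : Submodule (alg L) V | IsAtom N} => N.1)
    (motive := fun x => a x = 0) hx ?_ (map_zero a) ?_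
  · intro N y hy
    exact key N.1 N.2 y hy
  · intro y z hy hz
    rw [map_add, hy, hz, add_zero]

end cons

end Pool.Agent.H851.KT
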