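import Mathlib
import Pool.Graph.R_seed8.Y114.RM.Stm

/-!
# Lie algebras of skew endomorphisms which contain an operator of rank two
-/

set_option autoImplicit false

namespace Pool.Agent.H851.KT

open Module Pool.Agent.Y114.RM

variable {C : Type} [Field C] {W : Type} [AddCommGroup W] [Module C W]

/-- the endomorphism `x ↦ B(a, x) b - B(b, x) a` -/
def wdg (B : W →ₗ[C] W →ₗ[C] C) (a b : W) : End C W := (B a).smulRight b - (B b).smulRight a

/-- skew endomorphisms -/
def Skew (B : W →ₗ[C] W →ₗ[C] C) (X : End C W) : Prop := ∀ x y, B (X x) y = - B x (X y)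

variable (B : W →ₗ[C] W →ₗ[C] C)

theorem wdg_apply (a b x : W) : wdg B a b x = B a x • b - B b x • a := rfl

theorem wdg_swap (a b : W) : wdg B a b = - wdg B b a := by
  ext x
  rw [LinearMap.neg_apply, wdg_apply, wdg_apply]
  abel

theorem wdg_add (a b c : W) : wdg B a (b + c) = wdg B a b + wdg B a c := by
  ext x
  simp only [wdg_apply, LinearMap.add_apply, map_add, add_smul, smul_add]
  abel

theorem wdg_smul (a b : W) (c : C) : wdg B a (c • b) = c • wdg B a b := by
  ext x
  simp only [wdg_apply, LinearMap.smul_apply, map_smul, smul_sub, smul_eq_mul, smul_smul]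
  rw [mul_comm]

theorem wdg_self (a : W) : wdg B a a = 0 := by
  ext x
  rw [wdg_apply, sub_self, LinearMap.zero_apply]

variable {B}

theorem Skew.bracket_wdg {X : End C W} (hX : Skew B X) (a b : W) :
    X * wdg B a b - wdg B a b * X = wdg B (X a) b + wdg B a (X b) := by
  ext x
  simp only [LinearMap.sub_apply, LinearMap.add_apply, Module.End.mul_apply, wdg_apply, map_sub,
    map_smul, hX a x, hX b x, neg_smul]
  abel

theorem Skew.trace_wdg [FiniteDimensional C W] (hs : ∀ x y, B x y = B y x) {X : End C W}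
    (hX : Skew B X) (a b : W) : LinearMap.trace C W (X * wdg B a b) = -(2 * B (X a) b) := by
  have h1 : X * wdg B a b = (B a).smulRight (X b) - (B b).smulRight (X a) := by
    ext x
    simp only [Module.End.mul_apply, wdg_apply, map_sub, map_smul, LinearMap.sub_apply,
      LinearMap.smulRight_apply]
  rw [h1, map_sub, LinearMap.trace_smulRight, LinearMap.trace_smulRight, hX a b, hs b (X a),
    hX a b]
  ring

/-- the setting: `L ⊆ G` are Lie algebras of skew endomorphisms, and subspaces stable under `L` are stable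
under `G` -/
structure Pair (B : W →ₗ[C] W →ₗ[C] C) (L G : Submodule C (End C W)) : Prop where
  symm : ∀ x y, B x y = B y x
  lieL : IsLie L
  lieG : IsLie G
  le : L ≤ G
  skew : ∀ X ∈ G, Skew B X
  stable : ∀ F : Submodule C W, (∀ X ∈ L, ∀ x ∈ F, X x ∈ F) → ∀ X ∈ G, ∀ x ∈ F, X x ∈ F

variable {L G : Submodule C (End C W)}

/-- the part of `x` orthogonal to the hyperbolic pair `v`, `v'` -/
def pr (B : W →ₗ[C] W →ₗ[C] C) (v v' x : W) : W := x - B v' x • v - B v x • v'

section pair

variable {v v' : W} (h0 : B v v = 0) (h0' : B v' v' = 0) (h1 : B v v' = 1)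
  (hs : ∀ x y, B x y = B y x)

include h0 h1 in
theorem pr_left (x : W) : B v (pr B v v' x) = 0 := by
  rw [pr, map_sub, map_sub, map_smul, map_smul, h0, h1, smul_zero, sub_zero, smul_eq_mul, mul_one,
    sub_self]

include h0' h1 hs in
theorem pr_right (x : W) : B v' (pr B v v' x) = 0 := by
  rw [pr, map_sub, map_sub, map_smul, map_smul, hs v' v, h0', h1, smul_zero, sub_zero, smul_eq_mul,
    mul_one, sub_self]

/-- the part of degree `-1` of a skew endomorphism -/
theorem part [CharZero C] (hN : wdg B v' v ∈ L) (hL : IsLie L) {X : End C W} (hX : X ∈ L)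
    (hXs : Skew B X) (hNs : Skew B (wdg B v' v)) (h0 : B v v = 0) (h0' : B v' v' = 0)
    (h1 : B v v' = 1) (hs : ∀ x y, B x y = B y x) : wdg B v' (pr B v v' (X v)) ∈ L := by
  set N := wdg B v' v with hNdef
  have hXv : B v (X v) = 0 := by
    have h2 := hXs v v
    rw [hs (X v) v] at h2
    have h3 : 2 * B v (X v) = 0 := by linear_combination h2
    exact (mul_eq_zero.1 h3).resolve_left two_ne_zero
  have hXv' : B v' (X v') = 0 := by
    have h2 := hXs v' v'
    rw [hs (X v') v'] at h2
    have h3 : 2 * B v' (X v') = 0 := by linear_combination h2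
    exact (mul_eq_zero.1 h3).resolve_left two_ne_zero
  have hXvv : B v (X v') = - B v' (X v) := by
    have h2 := hXs v v'
    rw [hs (X v) v'] at h2
    rw [h2, neg_neg]
  have e1 : X * N - N * X = wdg B (X v') v + wdg B v' (X v) := hXs.bracket_wdg v' v
  have e2 := hNs.bracket_wdg (X v') v
  have e3 := hNs.bracket_wdg v' (X v)
  have n1 : N (X v') = (- B v (X v')) • v' := by
    rw [hNdef, wdg_apply, hXv', zero_smul, zero_sub, neg_smul]
  have n2 : N (X v) = B v' (X v) • v := by
    rw [hNdef, wdg_apply, hXv, zero_smul, sub_zero]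
  have n3 : N v = v := by
    rw [hNdef, wdg_apply, hs v' v, h1, h0, one_smul, zero_smul, sub_zero]
  have n4 : N v' = - v' := by
    rw [hNdef, wdg_apply, h1, h0', one_smul, zero_smul, zero_sub]
  have hmem1 : X * N - N * X ∈ L := hL X hX N hN
  have hmem2 : N * (X * N - N * X) - (X * N - N * X) * N ∈ L := hL N hN _ hmem1
  have hmem3 : (-(2 : C)⁻¹) • (N * (X * N - N * X) - (X * N - N * X) * N - (X * N - N * X)) ∈ L :=
    L.smul_mem _ (L.sub_mem hmem2 hmem1)
  have key : N * (X * N - N * X) - (X * N - N * X) * N - (X * N - N * X) =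
      -(2 • wdg B v' (X v)) + (2 * B v' (X v)) • wdg B v' v := by
    have e4 : N * (X * N - N * X) - (X * N - N * X) * N =
        (N * wdg B (X v') v - wdg B (X v') v * N) + (N * wdg B v' (X v) - wdg B v' (X v) * N) := by
      rw [e1, mul_add, add_mul]
      abel
    rw [e4, e2, e3, e1, n1, n2, n3, n4, wdg_swap B ((- B v (X v')) • v') v, wdg_smul, wdg_smul,
      wdg_swap B (-v') (X v), ← neg_one_smul C v', wdg_smul, hXvv, neg_neg, wdg_swap B v v',
      wdg_swap B (X v) v']
    module
  rw [key] at hmem3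
  have e5 : wdg B v' (pr B v v' (X v)) = (-(2 : C)⁻¹) •
      (-(2 • wdg B v' (X v)) + (2 * B v' (X v)) • wdg B v' v) := by
    rw [pr, hXv, zero_smul, sub_zero, sub_eq_add_neg, ← neg_smul, wdg_add, wdg_smul]
    module
  rw [e5]
  exact hmem3

end pair

/-- **First step.** The parts of degree `-1` of the elements of `G` are in `L`. -/
theorem Pair.part_mem [CharZero C] (h : Pair B L G) {v v' : W} (h0 : B v v = 0)
    (h0' : B v' v' = 0) (h1 : B v v' = 1) (hN : wdg B v' v ∈ L) {Y : End C W} (hY : Y ∈ G) :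
    wdg B v' (pr B v v' (Y v)) ∈ L := by
  have hs := h.symm
  have hNs : Skew B (wdg B v' v) := h.skew _ (h.le hN)
  have hpart : ∀ X ∈ L, wdg B v' (pr B v v' (X v)) ∈ L := fun X hX =>
    part hN h.lieL hX (h.skew X (h.le hX)) hNs h0 h0' h1 hs
  -- the space `L_{-1} v`
  let M : Submodule C W :=
    { carrier := {u | wdg B v' u ∈ L ∧ B v u = 0 ∧ B v' u = 0}
      zero_mem' := by
        refine ⟨?_, map_zero _, map_zero _⟩
        have : wdg B v' 0 = 0 := by
          have := wdg_smul B v' 0 (0 : C)
          rwa [zero_smul, zero_smul] at this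
        rw [this]
        exact L.zero_mem
      add_mem' := fun {a b} ha hb => by
        refine ⟨?_, ?_, ?_⟩
        · rw [wdg_add]
          exact L.add_mem ha.1 hb.1
        · rw [map_add, ha.2.1, hb.2.1, add_zero]
        · rw [map_add, ha.2.2, hb.2.2, add_zero]
      smul_mem' := fun c a ha => by
        refine ⟨?_, ?_, ?_⟩
        · rw [wdg_smul]
          exact L.smul_mem c ha.1
        · rw [map_smul, ha.2.1, smul_zero]
        · rw [map_smul, ha.2.2, smul_zero] }
  have hM : ∀ u, u ∈ M ↔ wdg B v' u ∈ L ∧ B v u = 0 ∧ B v' u = 0 := fun u => Iff.rfl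
  have hpM : ∀ X ∈ L, pr B v v' (X v) ∈ M := fun X hX =>
    ⟨hpart X hX, pr_left h0 h1 _, pr_right h0' h1 hs _⟩
  have pr_add : ∀ x y, pr B v v' (x + y) = pr B v v' x + pr B v v' y := by
    intro x y
    simp only [pr, map_add, add_smul]
    abel
  have pr_sub : ∀ x y, pr B v v' (x - y) = pr B v v' x - pr B v v' y := by
    intro x y
    simp only [pr, map_sub, sub_smul]
    abel
  have pr_smul : ∀ (c : C) x, pr B v v' (c • x) = c • pr B v v' x := by
    intro c x
    simp only [pr, map_smul, smul_sub, smul_eq_mul, smul_smul]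
  have pr_v : pr B v v' v = 0 := by
    rw [pr, hs v' v, h1, h0, one_smul, zero_smul, sub_self, sub_zero]
  have pr_v' : pr B v v' v' = 0 := by
    rw [pr, h0', h1, zero_smul, one_smul, sub_zero, sub_self]
  have pr_M : ∀ u ∈ M, pr B v v' u = u := by
    intro u hu
    rw [pr, hu.2.1, hu.2.2, zero_smul, zero_smul, sub_zero, sub_zero]
  have hsk : ∀ X ∈ L, Skew B X := fun X hX => h.skew X (h.le hX)
  -- `X u` for `u ∈ M`
  have hXu : ∀ X ∈ L, ∀ u ∈ M, pr B v v' (X u) ∈ M := by
    intro X hX u hu
    have hY := h.lieL X hX _ hu.1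
    have h2 := hpM _ hY
    have h3 : (X * wdg B v' u - wdg B v' u * X) v = X u - B v' (X v) • u + B u (X v) • v' := by
      rw [LinearMap.sub_apply, Module.End.mul_apply, Module.End.mul_apply, wdg_apply, wdg_apply,
        hs v' v, h1, hs u v, hu.2.1, one_smul, zero_smul, sub_zero]
      abel
    rw [h3, pr_add, pr_sub, pr_smul, pr_smul, pr_v', smul_zero, add_zero, pr_M u hu] at h2
    have h4 := M.add_mem h2 (M.smul_mem (B v' (X v)) hu)
    rwa [sub_add_cancel] at h4
  -- the stable subspace
  let F : Submodule C W :=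
    { carrier := {x | pr B v v' x ∈ M ∧ ((∀ u ∈ M, ∀ u' ∈ M, B u u' = 0) → B v x = 0)}
      zero_mem' := by
        refine ⟨?_, fun _ => map_zero _⟩
        have : pr B v v' 0 = 0 := by rw [pr]; simp
        rw [this]
        exact M.zero_mem
      add_mem' := fun {a b} ha hb => by
        refine ⟨?_, fun hz => ?_⟩
        · rw [pr_add]
          exact M.add_mem ha.1 hb.1
        · rw [map_add, ha.2 hz, hb.2 hz, add_zero]
      smul_mem' := fun c a ha => by
        refine ⟨?_, fun hz => ?_⟩
        · rw [pr_smul]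
          exact M.smul_mem c ha.1
        · rw [map_smul, ha.2 hz, smul_zero] }
  have hF : ∀ x, x ∈ F ↔ pr B v v' x ∈ M ∧ ((∀ u ∈ M, ∀ u' ∈ M, B u u' = 0) → B v x = 0) :=
    fun x => Iff.rfl
  have hFst : ∀ X ∈ L, ∀ x ∈ F, X x ∈ F := by
    intro X hX x hx
    have hxd : x = B v' x • v + pr B v v' x + B v x • v' := by
      rw [pr]
      abel
    have c1 : X v ∈ F := by
      refine ⟨hpM X hX, fun _ => ?_⟩
      have h2 := hsk X hX v v
      rw [hs (X v) v] at h2
      have h3 : 2 * B v (X v) = 0 := by linear_combination h2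
      exact (mul_eq_zero.1 h3).resolve_left two_ne_zero
    have c2 : ∀ u ∈ M, X u ∈ F := by
      intro u hu
      refine ⟨hXu X hX u hu, fun hz => ?_⟩
      have h2 := hsk X hX v u
      have h3 : X v = B v' (X v) • v + pr B v v' (X v) + B v (X v) • v' := by
        rw [pr]
        abel
      have h4 : B (X v) u = 0 := by
        rw [h3, map_add, map_add, map_smul, map_smul, LinearMap.add_apply, LinearMap.add_apply,
          LinearMap.smul_apply, LinearMap.smul_apply, hu.2.1, hu.2.2, hz _ (hpM X hX) u hu, smul_zero,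
          smul_zero, add_zero, add_zero]
      rw [h4] at h2
      exact (neg_eq_zero.1 h2.symm)
    by_cases hz : ∀ u ∈ M, ∀ u' ∈ M, B u u' = 0
    · rw [hxd, hx.2 hz, zero_smul, add_zero, map_add, map_smul]
      exact F.add_mem (F.smul_mem _ c1) (c2 _ hx.1)
    · have hz' := hz
      push Not at hz'
      obtain ⟨u₁, hu₁, u₂, hu₂, hu⟩ := hz'
      have c3 : X v' ∈ F := by
        refine ⟨?_, fun h' => absurd h' hz⟩
        have h2 : wdg B v' u₁ u₂ = (-B u₁ u₂) • v' := by
          rw [wdg_apply, hu₂.2.2, zero_smul, zero_sub, neg_smul]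
        have h3 : X v' = (-B u₁ u₂)⁻¹ • X (wdg B v' u₁ u₂) := by
          rw [h2, map_smul, smul_smul, inv_mul_cancel₀ (neg_ne_zero.2 hu), one_smul]
        have hY := h.lieL X hX _ hu₁.1
        have h4 : X (wdg B v' u₁ u₂) = (X * wdg B v' u₁ - wdg B v' u₁ * X) u₂ +
            wdg B v' u₁ (X u₂) := by
          rw [LinearMap.sub_apply, Module.End.mul_apply, Module.End.mul_apply]
          abel
        rw [h3, pr_smul, h4, pr_add]
        refine M.smul_mem _ (M.add_mem (hXu _ hY u₂ hu₂) ?_)
        rw [wdg_apply, pr_sub, pr_smul, pr_smul, pr_v', smul_zero, sub_zero, pr_M u₁ hu₁]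
        exact M.smul_mem _ hu₁
      rw [hxd, map_add, map_add, map_smul, map_smul]
      exact F.add_mem (F.add_mem (F.smul_mem _ c1) (c2 _ hx.1)) (F.smul_mem _ c3)
  have hvF : v ∈ F := by
    refine ⟨?_, fun _ => h0⟩
    rw [pr_v]
    exact M.zero_mem
  exact ((h.stable F hFst Y hY v hvF).1).1

/-- **Core.** If the trace form is nondegenerate on `G`, an element of `G` orthogonal to `L` kills `v`. -/
theorem Pair.kill [CharZero C] [FiniteDimensional C W] (h : Pair B L G)
    (hnd : NonDeg G) {v v' : W} (h0 : B v v = 0)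
    (h0' : B v' v' = 0) (h1 : B v v' = 1) (hN : wdg B v' v ∈ L) {Z : End C W} (hZ : Z ∈ G)
    (hZL : ∀ X ∈ L, LinearMap.trace C W (Z * X) = 0) : Z v = 0 := by
  have hs := h.symm
  have hNs : Skew B (wdg B v' v) := h.skew _ (h.le hN)
  have hZs := h.skew Z hZ
  have hN' : wdg B v v' ∈ L := by
    rw [wdg_swap]
    exact L.neg_mem hN
  have h1' : B v' v = 1 := by rw [hs, h1]
  have a1 := h.part_mem h0 h0' h1 hN hZ
  -- the part of degree `-1` vanishes
  have a2 : wdg B v' (pr B v v' (Z v)) = 0 := by
    refine hnd _ (h.le a1) fun Y hY => ?_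
    have a3 := h.part_mem h0' h0 h1' hN' hY
    have a4 := hZL _ a3
    rw [LinearMap.trace_mul_comm, (h.skew Y hY).trace_wdg hs]
    rw [hZs.trace_wdg hs] at a4
    have e1 : B (Y v') (pr B v v' (Z v)) = B (pr B v' v (Y v')) (pr B v v' (Z v)) := by
      have e2 : pr B v' v (Y v') = Y v' - B v (Y v') • v' - B v' (Y v') • v := rfl
      rw [e2, map_sub, map_sub, map_smul, map_smul, LinearMap.sub_apply, LinearMap.sub_apply,
        LinearMap.smul_apply, LinearMap.smul_apply, pr_left h0 h1, pr_right h0' h1 hs, smul_zero,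
        smul_zero, sub_zero, sub_zero]
    have e3 : B (Z v) (pr B v' v (Y v')) = B (pr B v v' (Z v)) (pr B v' v (Y v')) := by
      have e2 : pr B v v' (Z v) = Z v - B v' (Z v) • v - B v (Z v) • v' := rfl
      rw [e2, map_sub, map_sub, map_smul, map_smul, LinearMap.sub_apply, LinearMap.sub_apply,
        LinearMap.smul_apply, LinearMap.smul_apply, pr_left h0' h1', pr_right h0 h1' hs, smul_zero,
        smul_zero, sub_zero, sub_zero]
    rw [e3] at a4
    rw [e1, hs (pr B v' v (Y v'))]
    exact a4
  have a5 : pr B v v' (Z v) = 0 := by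
    have := LinearMap.congr_fun a2 v
    rwa [wdg_apply, h1', one_smul, hs (pr B v v' (Z v)) v, pr_left h0 h1, zero_smul, sub_zero,
      LinearMap.zero_apply] at this
  have a6 : B v (Z v) = 0 := by
    have h2 := hZs v v
    rw [hs (Z v) v] at h2
    have h3 : 2 * B v (Z v) = 0 := by linear_combination h2
    exact (mul_eq_zero.1 h3).resolve_left two_ne_zero
  have a7 : B v' (Z v) = 0 := by
    have h2 := hZL _ hN'
    rw [hZs.trace_wdg hs, hs (Z v) v'] at h2
    have h3 : 2 * B v' (Z v) = 0 := by linear_combination -h2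
    exact (mul_eq_zero.1 h3).resolve_left two_ne_zero
  rw [pr, a6, a7, zero_smul, zero_smul, sub_zero, sub_zero] at a5
  exact a5

end Pool.Agent.H851.KT
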