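import Mathlib
import Pool.Agent.H851.KT.Core
import Pool.Agent.H851.KT.Alg

/-!
# Base change, and the operators of rank two attached to simple eigenvalues
-/

set_option autoImplicit false

namespace Pool.Agent.H851.KT

open Module TensorProduct Pool.Agent.Y114.RM Pool.Agent.TH118.SG Polynomial

section form

variable {k : Type} [Field k] {V : Type} [AddCommGroup V] [Module k V]

/-- the skew endomorphisms which commute with the endomorphisms which commute with `L` -/
def big (b : V →ₗ[k] V →ₗ[k] k) (L : Submodule k (End k V)) : Submodule k (End k V) where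
  carrier := {X | Skew b X ∧ ∀ Y : End k V, (∀ Z ∈ L, Z * Y = Y * Z) → X * Y = Y * X}
  zero_mem' := ⟨fun x y => by simp, fun Y _ => by rw [zero_mul, mul_zero]⟩
  add_mem' := by
    rintro X X' ⟨h1, h2⟩ ⟨h3, h4⟩
    refine ⟨fun x y => ?_, fun Y hY => by rw [add_mul, mul_add, h2 Y hY, h4 Y hY]⟩
    rw [LinearMap.add_apply, LinearMap.add_apply, map_add, LinearMap.add_apply, map_add, h1, h3]
    ring
  smul_mem' := by
    rintro c X ⟨h1, h2⟩
    refine ⟨fun x y => ?_, fun Y hY => by rw [smul_mul_assoc, mul_smul_comm, h2 Y hY]⟩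
    rw [LinearMap.smul_apply, LinearMap.smul_apply, map_smul, LinearMap.smul_apply, map_smul, h1,
      smul_neg]

theorem mem_big {b : V →ₗ[k] V →ₗ[k] k} {L : Submodule k (End k V)} {X : End k V} :
    X ∈ big b L ↔ Skew b X ∧ ∀ Y : End k V, (∀ Z ∈ L, Z * Y = Y * Z) → X * Y = Y * X := Iff.rfl

theorem le_big {b : V →ₗ[k] V →ₗ[k] k} {L : Submodule k (End k V)} (h : ∀ X ∈ L, Skew b X) :
    L ≤ big b L := fun X hX => ⟨h X hX, fun _ hY => hY X hX⟩

theorem big_lie {b : V →ₗ[k] V →ₗ[k] k} {L : Submodule k (End k V)} : IsLie (big b L) := by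
  intro X hX Y hY
  refine ⟨fun x y => ?_, fun Z hZ => ?_⟩
  · rw [LinearMap.sub_apply, LinearMap.sub_apply, map_sub, LinearMap.sub_apply, map_sub,
      Module.End.mul_apply, Module.End.mul_apply, Module.End.mul_apply, Module.End.mul_apply,
      hX.1, hY.1, hY.1, hX.1]
    ring
  · rw [sub_mul, mul_sub, mul_assoc, hY.2 Z hZ, ← mul_assoc X, hX.2 Z hZ, mul_assoc Y X, hX.2 Z hZ,
      ← mul_assoc Y Z, hY.2 Z hZ, mul_assoc, mul_assoc]

variable [FiniteDimensional k V]

theorem big_le {b : V →ₗ[k] V →ₗ[k] k} {L : Submodule k (End k V)}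
    (h : IsSemisimpleModule (alg L) V) {X : End k V} (hX : X ∈ big b L) : X ∈ alg L :=
  mem_alg h hX.2

/-- the traces of adjoint endomorphisms -/
theorem trace_adj {b : V →ₗ[k] V →ₗ[k] k} (hs : ∀ x y, b x y = b y x)
    (hb : ∀ x, (∀ y, b x y = 0) → x = 0) {S T : End k V} (h : ∀ x y, b (S x) y = b x (T y)) :
    LinearMap.trace k V S = LinearMap.trace k V T := by
  have hinj : Function.Injective b := by
    rw [← LinearMap.ker_eq_bot, eq_bot_iff]
    intro x hx
    rw [Submodule.mem_bot]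
    refine hb x fun y => ?_
    rw [LinearMap.mem_ker.1 hx, LinearMap.zero_apply]
  let e : V ≃ₗ[k] Dual k V := LinearMap.linearEquivOfInjective b hinj Subspace.dual_finrank_eq.symm
  have he : ∀ x, e x = b x := fun x => rfl
  have h1 : e.conj T = Dual.transpose (R := k) S := by
    ext f x
    obtain ⟨y, rfl⟩ := e.surjective f
    rw [LinearEquiv.conj_apply_apply, LinearEquiv.symm_apply_apply, he]
    change b (T y) x = e y (S x)
    rw [he, hs (T y) x, ← h x y, hs]
  rw [← LinearMap.trace_conj' T e, h1, LinearMap.trace_transpose']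

omit [FiniteDimensional k V] in
/-- the adjoint involution on the algebra generated by skew endomorphisms -/
theorem exists_adj {b : V →ₗ[k] V →ₗ[k] k} {L : Submodule k (End k V)} (h : ∀ X ∈ L, Skew b X) :
    ∀ a ∈ alg L, ∃ a' ∈ alg L, ∀ x y, b (a x) y = b x (a' y) := by
  intro a ha
  induction ha using Algebra.adjoin_induction with
  | mem X hX =>
    refine ⟨-X, (alg L).neg_mem (le_alg hX), fun x y => ?_⟩
    rw [h X hX, LinearMap.neg_apply, map_neg]
  | algebraMap c =>
    refine ⟨algebraMap k _ c, (alg L).algebraMap_mem c, fun x y => ?_⟩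
    rw [Module.algebraMap_end_apply, Module.algebraMap_end_apply, map_smul, LinearMap.smul_apply,
      map_smul]
  | add a b' _ _ h1 h2 =>
    obtain ⟨c, hc, hc'⟩ := h1
    obtain ⟨d, hd, hd'⟩ := h2
    refine ⟨c + d, (alg L).add_mem hc hd, fun x y => ?_⟩
    rw [LinearMap.add_apply, map_add, LinearMap.add_apply, hc', hd', LinearMap.add_apply, map_add]
  | mul a b' _ _ h1 h2 =>
    obtain ⟨c, hc, hc'⟩ := h1
    obtain ⟨d, hd, hd'⟩ := h2
    refine ⟨d * c, (alg L).mul_mem hd hc, fun x y => ?_⟩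
    rw [Module.End.mul_apply, hc', hd', Module.End.mul_apply]

theorem big_nondeg [CharZero k] {b : V →ₗ[k] V →ₗ[k] k} (hs : ∀ x y, b x y = b y x)
    (hb : ∀ x, (∀ y, b x y = 0) → x = 0) {L : Submodule k (End k V)} (hL : ∀ X ∈ L, Skew b X)
    (h : IsSemisimpleModule (alg L) V) : NonDeg (big b L) := by
  intro X hX hXt
  refine alg_nondeg h (big_le h hX) fun a ha => ?_
  obtain ⟨a', ha', haa⟩ := exists_adj hL a ha
  have haa' : ∀ x y, b (a' x) y = b x (a y) := by
    intro x y
    rw [hs, ← haa, hs]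
  have h1 : a - a' ∈ big b L := by
    refine ⟨fun x y => ?_, fun Y hY => alg_comm hY _ ((alg L).sub_mem ha ha')⟩
    rw [LinearMap.sub_apply, LinearMap.sub_apply, map_sub, LinearMap.sub_apply, map_sub, haa, haa']
    ring
  have h2 := hXt _ h1
  rw [mul_sub, map_sub] at h2
  have h3 : LinearMap.trace k V (X * a) = LinearMap.trace k V (-(a' * X)) := by
    refine trace_adj hs hb fun x y => ?_
    rw [Module.End.mul_apply, hX.1, haa, LinearMap.neg_apply, Module.End.mul_apply, map_neg]
  rw [map_neg, LinearMap.trace_mul_comm k a' X] at h3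
  have h4 : 2 * LinearMap.trace k V (X * a) = 0 := by linear_combination h2 + h3
  exact (mul_eq_zero.1 h4).resolve_left two_ne_zero

end form

section bc

variable {k : Type} [Field k] {C : Type} [Field C] [Algebra k C] {V : Type} [AddCommGroup V]
  [Module k V]

variable (C) in
/-- the base change of a bilinear form -/
noncomputable def bcB (b : V →ₗ[k] V →ₗ[k] k) : (C ⊗[k] V) →ₗ[C] (C ⊗[k] V) →ₗ[C] C :=
  LinearMap.BilinForm.baseChange C b

theorem bcB_tmul (b : V →ₗ[k] V →ₗ[k] k) (c c' : C) (x y : V) :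
    bcB C b (c ⊗ₜ x) (c' ⊗ₜ y) = (c' * c) * algebraMap k C (b x y) := by
  rw [bcB, LinearMap.BilinForm.baseChange_tmul, Algebra.smul_def]
  ring

theorem bcB_symm {b : V →ₗ[k] V →ₗ[k] k} (hs : ∀ x y, b x y = b y x) (x y : C ⊗[k] V) :
    bcB C b x y = bcB C b y x := by
  induction x with
  | zero => simp
  | add x x' h1 h2 => rw [map_add, LinearMap.add_apply, h1, h2, map_add]
  | tmul c v =>
    induction y with
    | zero => simp
    | add y y' h1 h2 => rw [map_add, h1, h2, map_add, LinearMap.add_apply]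
    | tmul d w => rw [bcB_tmul, bcB_tmul, hs v w, mul_comm d c]

theorem bcB_skew {b : V →ₗ[k] V →ₗ[k] k} {X : End k V} (h : Skew b X) :
    Skew (bcB C b) (X.baseChange C) := by
  intro x y
  induction x with
  | zero => simp
  | add x x' h1 h2 =>
    rw [map_add, map_add, map_add, LinearMap.add_apply, h1, h2, LinearMap.add_apply]
    ring
  | tmul c v =>
    induction y with
    | zero => simp
    | add y y' h1 h2 =>
      rw [map_add, h1, h2, map_add, map_add]
      ring
    | tmul d w =>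
      rw [LinearMap.baseChange_tmul, LinearMap.baseChange_tmul, bcB_tmul, bcB_tmul, h, map_neg]
      ring

theorem bcS_skew {b : V →ₗ[k] V →ₗ[k] k} {G : Submodule k (End k V)} (h : ∀ X ∈ G, Skew b X) :
    ∀ X ∈ bcS C G, Skew (bcB C b) X := by
  intro X hX
  induction hX using Submodule.span_induction with
  | mem X hX =>
    obtain ⟨Y, hY, rfl⟩ := hX
    exact bcB_skew (h Y hY)
  | zero => intro x y; simp
  | add X Y _ _ hX hY =>
    intro x y
    rw [LinearMap.add_apply, LinearMap.add_apply, map_add, LinearMap.add_apply, map_add, hX, hY]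
    ring
  | smul c X _ hX =>
    intro x y
    rw [LinearMap.smul_apply, LinearMap.smul_apply, map_smul, LinearMap.smul_apply, map_smul, hX,
      smul_neg]

theorem bcB_pv (b : V →ₗ[k] V →ₗ[k] k) (π : C →ₗ[k] k) (x : C ⊗[k] V) (y : V) :
    π (bcB C b x (1 ⊗ₜ y)) = b (pv π x) y := by
  induction x with
  | zero => simp
  | add x x' h1 h2 =>
    rw [map_add, LinearMap.add_apply, map_add, h1, h2, map_add, map_add, LinearMap.add_apply]
  | tmul c v =>
    rw [bcB_tmul, one_mul, pv_tmul, map_smul, LinearMap.smul_apply, mul_comm, ← Algebra.smul_def,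
      map_smul, smul_eq_mul, smul_eq_mul, mul_comm]

theorem eq_zero_of_pv (x : C ⊗[k] V) (h : ∀ π : C →ₗ[k] k, pv π x = 0) : x = 0 := by
  obtain ⟨T, hT⟩ := Pool.Agent.Y809.RM.BC.exists_fin (Basis.ofVectorSpace k C) x
  rw [hT T (Finset.Subset.refl T)]
  refine Finset.sum_eq_zero fun t _ => ?_
  rw [h, TensorProduct.tmul_zero]

theorem bcB_nondeg {b : V →ₗ[k] V →ₗ[k] k} (hb : ∀ x, (∀ y, b x y = 0) → x = 0)
    (x : C ⊗[k] V) (hx : ∀ y, bcB C b x y = 0) : x = 0 := by
  refine eq_zero_of_pv x fun π => hb _ fun y => ?_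
  rw [← bcB_pv, hx, map_zero]

variable {L G : Submodule k (End k V)}

theorem alg_bc_stable {F : Submodule C (C ⊗[k] V)} (h : ∀ X ∈ bcS C L, ∀ x ∈ F, X x ∈ F) :
    ∀ a ∈ alg L, ∀ x ∈ F, a.baseChange C x ∈ F := by
  intro a ha
  induction ha using Algebra.adjoin_induction with
  | mem X hX => exact h _ (mem_bcS hX)
  | algebraMap c =>
    intro x hx
    have h1 : (algebraMap k (End k V) c).baseChange C = algebraMap k (End C (C ⊗[k] V)) c := by
      ext v
      simp [Module.algebraMap_end_apply]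
    rw [h1, Module.algebraMap_end_apply, ← algebraMap_smul C c x]
    exact F.smul_mem _ hx
  | add a b _ _ h1 h2 =>
    intro x hx
    rw [LinearMap.baseChange_add]
    exact F.add_mem (h1 x hx) (h2 x hx)
  | mul a b _ _ h1 h2 =>
    intro x hx
    rw [bc_mul]
    exact h1 _ (h2 x hx)

theorem bcS_stable' (hG : ∀ X ∈ G, X ∈ alg L) {F : Submodule C (C ⊗[k] V)}
    (h : ∀ X ∈ bcS C L, ∀ x ∈ F, X x ∈ F) : ∀ X ∈ bcS C G, ∀ x ∈ F, X x ∈ F := by
  intro X hX
  induction hX using Submodule.span_induction with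
  | mem X hX =>
    obtain ⟨Y, hY, rfl⟩ := hX
    exact alg_bc_stable h Y (hG Y hY)
  | zero => intro x _; rw [LinearMap.zero_apply]; exact F.zero_mem
  | add X Y _ _ hX hY => intro x hx; exact F.add_mem (hX x hx) (hY x hx)
  | smul c X _ hX => intro x hx; exact F.smul_mem c (hX x hx)

variable [FiniteDimensional k V]

theorem bcS_trace {Z : End k V} (h : ∀ X ∈ L, LinearMap.trace k V (Z * X) = 0) :
    ∀ X ∈ bcS C L, LinearMap.trace C (C ⊗[k] V) (Z.baseChange C * X) = 0 := by
  intro X hX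
  induction hX using Submodule.span_induction with
  | mem X hX =>
    obtain ⟨Y, hY, rfl⟩ := hX
    rw [← bc_mul, LinearMap.trace_baseChange, h Y hY, map_zero]
  | zero => rw [mul_zero, map_zero]
  | add X Y _ _ hX hY => rw [mul_add, map_add, hX, hY, add_zero]
  | smul c X _ hX => rw [mul_smul_comm, map_smul, hX, smul_zero]

/-- the pair of the base changes -/
theorem bc_pair {b : V →ₗ[k] V →ₗ[k] k} (hs : ∀ x y, b x y = b y x) (hL : ∀ X ∈ L, Skew b X)
    (hLie : IsLie L) (h : IsSemisimpleModule (alg L) V) :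
    Pair (bcB C b) (bcS C L) (bcS C (big b L)) where
  symm := bcB_symm hs
  lieL := (Pool.Agent.Y809.RM.BC.bc k C V L).2.1 hLie
  lieG := (Pool.Agent.Y809.RM.BC.bc k C V _).2.1 big_lie
  le := bcS_mono (le_big hL)
  skew := bcS_skew fun X hX => hX.1
  stable := fun _ hF => bcS_stable' (fun X hX => big_le h hX) hF

/-- **Core over `k`.** -/
theorem kill_bc [CharZero k] [CharZero C] {b : V →ₗ[k] V →ₗ[k] k} (hs : ∀ x y, b x y = b y x)
    (hb : ∀ x, (∀ y, b x y = 0) → x = 0) (hL : ∀ X ∈ L, Skew b X)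
    (hLie : IsLie L) (h : IsSemisimpleModule (alg L) V) {v v' : C ⊗[k] V}
    (h0 : bcB C b v v = 0) (h0' : bcB C b v' v' = 0) (h1 : bcB C b v v' = 1)
    (hN : wdg (bcB C b) v' v ∈ bcS C L) {Z : End k V} (hZ : Z ∈ big b L)
    (hZL : ∀ X ∈ L, LinearMap.trace k V (Z * X) = 0) : Z.baseChange C v = 0 :=
  (bc_pair hs hL hLie h).kill
    ((Pool.Agent.Y809.RM.BC.bc k C V _).2.2.1 (big_nondeg hs hb hL h)) h0 h0' h1 hN (mem_bcS hZ)
    (bcS_trace hZL)

end bc

section op

variable {C : Type} [Field C] {W : Type} [AddCommGroup W] [Module C W]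
  {B : W →ₗ[C] W →ₗ[C] C}

/-- an operator of rank two with simple eigenvalues `1` and `-1` -/
theorem op_wdg [CharZero C] (hs : ∀ x y, B x y = B y x) (hB : ∀ x, (∀ y, B x y = 0) → x = 0)
    {T Y : End C W} (htop : ⨆ γ, T.maxGenEigenspace γ = ⊤) (hY : Skew B Y) {β β' : C} {v v' : W}
    (hv0 : v ≠ 0) (hv : ∀ x ∈ T.maxGenEigenspace β, ∃ c : C, x = c • v)
    (hv' : ∀ x ∈ T.maxGenEigenspace β', ∃ c : C, x = c • v')
    (h1 : Y v = v) (h2 : Y v' = - v')
    (h3 : ∀ γ, γ ≠ β → γ ≠ β' → ∀ x ∈ T.maxGenEigenspace γ, Y x = 0) :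
    ∃ a : C, B v v = 0 ∧ B (a • v') (a • v') = 0 ∧ B v (a • v') = 1 ∧ Y = wdg B (a • v') v := by
  have e1 : B v v = 0 := by
    have h4 := hY v v
    rw [h1] at h4
    have h5 : 2 * B v v = 0 := by linear_combination h4
    exact (mul_eq_zero.1 h5).resolve_left two_ne_zero
  have e2 : B v' v' = 0 := by
    have h4 := hY v' v'
    rw [h2, map_neg, map_neg, LinearMap.neg_apply, neg_neg] at h4
    have h5 : 2 * B v' v' = 0 := by linear_combination -h4
    exact (mul_eq_zero.1 h5).resolve_left two_ne_zero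
  have e3 : ∀ x, Y x = 0 → B v x = 0 := by
    intro x hx
    have h4 := hY v x
    rwa [h1, hx, map_zero, neg_zero] at h4
  have e4 : ∀ x, Y x = 0 → B v' x = 0 := by
    intro x hx
    have h4 := hY v' x
    rw [h2, hx, map_zero, neg_zero, map_neg, LinearMap.neg_apply, neg_eq_zero] at h4
    exact h4
  have hind : ∀ (f g : W →ₗ[C] W), f v = g v → f v' = g v' → (∀ x, Y x = 0 → f x = g x) →
      f = g := by
    intro f g a1 a2 a3
    have : LinearMap.eqLocus f g = ⊤ := by
      rw [eq_top_iff, ← htop]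
      refine iSup_le fun γ x hx => ?_
      rw [LinearMap.mem_eqLocus]
      by_cases c1 : γ = β
      · obtain ⟨c, rfl⟩ := hv x (c1 ▸ hx)
        rw [map_smul, map_smul, a1]
      by_cases c2 : γ = β'
      · obtain ⟨c, rfl⟩ := hv' x (c2 ▸ hx)
        rw [map_smul, map_smul, a2]
      exact a3 x (h3 γ c1 c2 x hx)
    ext x
    have hx : x ∈ LinearMap.eqLocus f g := by rw [this]; trivial
    exact hx
  have e5 : B v v' ≠ 0 := by
    intro h0
    apply hv0
    have h6 : (B v).smulRight v = 0 := by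
      refine hind _ _ ?_ ?_ ?_
      · rw [LinearMap.smulRight_apply, e1, zero_smul, LinearMap.zero_apply]
      · rw [LinearMap.smulRight_apply, h0, zero_smul, LinearMap.zero_apply]
      · intro x hx
        rw [LinearMap.smulRight_apply, e3 x hx, zero_smul, LinearMap.zero_apply]
    refine hB v fun y => ?_
    have h7 := LinearMap.congr_fun h6 y
    rw [LinearMap.smulRight_apply, LinearMap.zero_apply] at h7
    exact (smul_eq_zero.1 h7).resolve_right hv0
  refine ⟨(B v v')⁻¹, e1, ?_, ?_, ?_⟩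
  · rw [map_smul, map_smul, LinearMap.smul_apply, e2, smul_zero, smul_zero]
  · rw [map_smul, smul_eq_mul, inv_mul_cancel₀ e5]
  · refine hind _ _ ?_ ?_ ?_
    · rw [h1, wdg_apply, map_smul, LinearMap.smul_apply, hs v' v, smul_eq_mul, inv_mul_cancel₀ e5,
        one_smul, e1, zero_smul, sub_zero]
    · rw [h2, wdg_apply, map_smul, LinearMap.smul_apply, e2, smul_zero, zero_smul, zero_sub,
        smul_smul, mul_inv_cancel₀ e5, one_smul]
    · intro x hx
      rw [hx, wdg_apply, map_smul, LinearMap.smul_apply, e4 x hx, e3 x hx, smul_zero, zero_smul,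
        zero_smul, sub_zero]

end op

end Pool.Agent.H851.KT
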