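import Mathlib
import Pool.Agent.H851.KT.Base

/-!
# The abstract theorem
-/

set_option autoImplicit false

namespace Pool.Agent.H851.KT

open Module TensorProduct Pool.Agent.Y114.RM Pool.Agent.TH118.SG Matrix

section form

variable {k n : Type} [Field k] [Fintype n] [DecidableEq n]

/-- the bilinear form of `q` -/
noncomputable def form (q : Matrix n n k) : (n → k) →ₗ[k] (n → k) →ₗ[k] k :=
  Matrix.toLinearMap₂' k q

theorem form_apply (q : Matrix n n k) (x y : n → k) : form q x y = x ⬝ᵥ q *ᵥ y :=
  Matrix.toLinearMap₂'_apply' q x y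

theorem form_symm {q : Matrix n n k} (hq : qᵀ = q) (x y : n → k) :
    form q x y = form q y x := by
  rw [form_apply, form_apply, Matrix.dotProduct_mulVec, ← Matrix.mulVec_transpose, hq,
    dotProduct_comm]

theorem form_nondeg {q : Matrix n n k} (hq : qᵀ = q) (hd : q.det ≠ 0) (x : n → k)
    (h : ∀ y, form q x y = 0) : x = 0 := by
  have h1 : q *ᵥ x = 0 := by
    apply dotProduct_eq_zero
    intro y
    rw [dotProduct_comm, ← form_apply, form_symm hq]
    exact h y
  have h2 := Matrix.mulVec_injective_of_isUnit ((Matrix.isUnit_iff_isUnit_det q).2 hd.isUnit)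
  exact h2 (by rw [h1, Matrix.mulVec_zero])

theorem skew_iff {q X : Matrix n n k} :
    Skew (form q) (Matrix.toLin' X) ↔ Xᵀ * q + q * X = 0 := by
  have key : ∀ x y : n → k, form q (Matrix.toLin' X x) y + form q x (Matrix.toLin' X y) =
      x ⬝ᵥ (Xᵀ * q + q * X) *ᵥ y := by
    intro x y
    rw [form_apply, form_apply, Matrix.toLin'_apply, Matrix.toLin'_apply, Matrix.add_mulVec,
      dotProduct_add, ← Matrix.mulVec_mulVec, ← Matrix.mulVec_mulVec,
      Matrix.dotProduct_mulVec x Xᵀ, Matrix.vecMul_transpose]
  constructor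
  · intro h
    apply Matrix.toLin'.injective
    apply LinearMap.ext
    intro y
    rw [Matrix.toLin'_apply, map_zero, LinearMap.zero_apply]
    apply dotProduct_eq_zero
    intro x
    rw [dotProduct_comm, ← key, h x y, neg_add_cancel]
  · intro h x y
    have h1 := key x y
    rw [h, Matrix.zero_mulVec, dotProduct_zero] at h1
    linear_combination h1

end form

section abs

variable {k : Type} [Field k] [CharZero k] {V : Type} [AddCommGroup V] [Module k V]
  [FiniteDimensional k V] {b : V →ₗ[k] V →ₗ[k] k} {L : Submodule k (End k V)}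

/-- **The abstract theorem.** -/
theorem eq_big (hb : ∀ x, (∀ y, b x y = 0) → x = 0) (hLie : IsLie L)
    (hskew : ∀ X ∈ L, Skew b X) (hsemi : IsSemisimpleModule (alg L) V)
    (hfix : ∀ P : End k V, P * P = P → (∀ X ∈ L, X * P = P * X) →
      (∀ x, (∀ Z ∈ big b L, (∀ X ∈ L, LinearMap.trace k V (Z * X) = 0) → Z x = 0) → P x = 0) →
      ∀ a, P a = a → ∀ X ∈ L, X * (b a).smulRight a = (b a).smulRight a * X) :
    L = big b L := by
  -- the elements orthogonal to `L`
  have hZ0 : ∀ Z ∈ big b L, (∀ X ∈ L, LinearMap.trace k V (Z * X) = 0) → Z = 0 := by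
    let Ker : Submodule k V :=
      { carrier := {x | ∀ Z ∈ big b L,
          (∀ X ∈ L, LinearMap.trace k V (Z * X) = 0) → Z x = 0}
        zero_mem' := fun Z _ _ => map_zero Z
        add_mem' := fun {a b} ha hb Z h1 h2 => by rw [map_add, ha Z h1 h2, hb Z h1 h2, add_zero]
        smul_mem' := fun c a ha Z h1 h2 => by rw [map_smul, ha Z h1 h2, smul_zero] }
    have hKst : ∀ X ∈ L, ∀ x ∈ Ker, X x ∈ Ker := by
      intro X hX x hx Z hZ hZt
      have h1 : Z * X - X * Z ∈ big b L := big_lie Z hZ X (le_big hskew hX)
      have h2 : ∀ Y ∈ L, LinearMap.trace k V ((Z * X - X * Z) * Y) = 0 := by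
        intro Y hY
        have h3 := hZt _ (hLie X hX Y hY)
        rw [sub_mul, map_sub]
        rw [mul_sub, map_sub] at h3
        have h4 : LinearMap.trace k V (X * Z * Y) = LinearMap.trace k V (Z * (Y * X)) := by
          rw [mul_assoc, LinearMap.trace_mul_comm, mul_assoc]
        rw [h4, mul_assoc]
        exact h3
      have h3 := hx _ h1 h2
      rw [LinearMap.sub_apply, Module.End.mul_apply, Module.End.mul_apply, hx Z hZ hZt, map_zero,
        sub_zero] at h3
      exact h3
    obtain ⟨P₁, hP1, hP2, hP3⟩ := exists_proj hsemi hKst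
    set P : End k V := 1 - P₁ with hPdef
    have hPker : ∀ x ∈ Ker, P x = 0 := by
      intro x hx
      rw [hPdef, LinearMap.sub_apply, Module.End.one_apply, hP3 x hx, sub_self]
    have hPL : ∀ X ∈ L, X * P = P * X := by
      intro X hX
      rw [hPdef, mul_sub, sub_mul, hP1 X hX, mul_one, one_mul]
    have hPP : P * P = P := by
      have h1 : P₁ * P₁ = P₁ := LinearMap.ext fun x => hP3 _ (hP2 x)
      rw [hPdef, mul_sub, sub_mul, sub_mul, one_mul, mul_one, one_mul, h1, sub_self, sub_zero]
    -- the image of `P` is killed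
    intro Z hZ hZt
    have hZP : ∀ a, P a = a → Z a = 0 := by
      intro a ha
      have h1 := hZ.2 _ (hfix P hPP hPL hPker a ha)
      by_contra hZa
      have ha0 : a ≠ 0 := by
        rintro rfl
        exact hZa (map_zero Z)
      obtain ⟨x, hx⟩ : ∃ x, b a x ≠ 0 := by
        by_contra hcon
        push Not at hcon
        exact ha0 (hb a hcon)
      have h2 := LinearMap.congr_fun h1 x
      rw [Module.End.mul_apply, Module.End.mul_apply, LinearMap.smulRight_apply,
        LinearMap.smulRight_apply, map_smul] at h2
      have h3 : Z a = ((b a x)⁻¹ * b a (Z x)) • a := by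
        rw [mul_smul, ← h2, smul_smul, inv_mul_cancel₀ hx, one_smul]
      have h4 := hZ.1 a x
      rw [h3, map_smul, LinearMap.smul_apply, smul_eq_mul] at h4
      have h5 : 2 * b a (Z x) = 0 := by
        have h6 : (b a x)⁻¹ * b a (Z x) * b a x = b a (Z x) := by
          field_simp
        rw [h6] at h4
        linear_combination h4
      have h6 := (mul_eq_zero.1 h5).resolve_left two_ne_zero
      apply hZa
      rw [h3, h6, mul_zero, zero_smul]
    refine LinearMap.ext fun x => ?_
    have h1 : x = P₁ x + P x := by
      rw [hPdef, LinearMap.sub_apply, Module.End.one_apply]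
      abel
    have h2 : P (P x) = P x := by rw [← Module.End.mul_apply, hPP]
    rw [h1, map_add, hP2 x Z hZ hZt, hZP _ h2, add_zero, LinearMap.zero_apply]
  -- dimension count
  refine Submodule.eq_of_le_of_finrank_le (le_big hskew) ?_
  let T : big b L →ₗ[k] Dual k L :=
    { toFun := fun Z =>
        { toFun := fun X => LinearMap.trace k V (Z.1 * X.1)
          map_add' := fun X Y => by
            rw [Submodule.coe_add, mul_add, map_add]
          map_smul' := fun c X => by
            rw [Submodule.coe_smul, mul_smul_comm, map_smul, RingHom.id_apply] }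
      map_add' := fun Z Z' => by
        ext X
        change LinearMap.trace k V ((Z.1 + Z'.1) * X.1) = _
        rw [add_mul, map_add]
        rfl
      map_smul' := fun c Z => by
        ext X
        change LinearMap.trace k V ((c • Z.1) * X.1) = _
        rw [smul_mul_assoc, map_smul]
        rfl }
  have hT : Function.Injective T := by
    intro Z Z' hZ
    apply Subtype.ext
    rw [← sub_eq_zero]
    refine hZ0 (Z.1 - Z'.1) ((big b L).sub_mem Z.2 Z'.2) fun X hX => ?_
    have h2 := LinearMap.congr_fun hZ ⟨X, hX⟩
    rw [sub_mul, map_sub, sub_eq_zero]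
    exact h2
  have h1 := LinearMap.finrank_le_finrank_of_injective hT
  exact h1.trans_eq (Subspace.dual_finrank_eq (K := k) (V := L))

end abs

end Pool.Agent.H851.KT
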