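import Mathlib
import Pool.Agent.H851.KT.Abs
import Pool.Agent.H851.Ext

/-!
# Matrices and base change
-/

set_option autoImplicit false

namespace Pool.Agent.H851.KT

open Module TensorProduct Pool.Agent.Y114.RM Matrix

section

variable {k F : Type} [Field k] [Field F] [Algebra k F] {n : Type} [Fintype n] [DecidableEq n]

variable (k F n) in
/-- coordinates -/
noncomputable def ee : F ⊗[k] (n → k) ≃ₗ[F] (n → F) := TensorProduct.piScalarRight k F F n

theorem ee_tmul (c : F) (x : n → k) : ee k F n (c ⊗ₜ x) = fun i => x i • c := by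
  rw [ee, TensorProduct.piScalarRight_apply, TensorProduct.piScalarRightHom_tmul]

theorem ee_one (x : n → k) : ee k F n (1 ⊗ₜ x) = fun i => algebraMap k F (x i) := by
  rw [ee_tmul]
  funext i
  rw [Algebra.smul_def, mul_one]

/-- a matrix as an endomorphism of the base change -/
noncomputable def tE : Matrix n n F →ₗ[F] End F (F ⊗[k] (n → k)) where
  toFun M := (ee k F n).symm.toLinearMap ∘ₗ Matrix.toLin' M ∘ₗ (ee k F n).toLinearMap
  map_add' M N := by
    refine LinearMap.ext fun x => ?_
    simp only [LinearMap.comp_apply, map_add, LinearMap.add_apply, LinearEquiv.coe_coe]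
  map_smul' c M := by
    refine LinearMap.ext fun x => ?_
    simp only [LinearMap.comp_apply, map_smul, LinearMap.smul_apply, LinearEquiv.coe_coe,
      RingHom.id_apply]

theorem ee_tE (M : Matrix n n F) (z : F ⊗[k] (n → k)) :
    ee k F n (tE M z) = M *ᵥ ee k F n z := by
  change ee k F n ((ee k F n).symm (Matrix.toLin' M (ee k F n z))) = _
  rw [LinearEquiv.apply_symm_apply, Matrix.toLin'_apply]

theorem tE_map (Y : Matrix n n k) :
    tE (Y.map (algebraMap k F)) = (Matrix.toLin' Y).baseChange F := by
  refine LinearMap.ext fun z => ?_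
  apply (ee k F n).injective
  rw [ee_tE]
  induction z with
  | zero => simp
  | add x y h1 h2 => rw [map_add, Matrix.mulVec_add, h1, h2, map_add, map_add]
  | tmul c x =>
    rw [LinearMap.baseChange_tmul, ee_tmul, ee_tmul]
    funext i
    simp only [Matrix.mulVec, dotProduct, Matrix.map_apply, Matrix.toLin'_apply, Algebra.smul_def,
      map_sum, map_mul, Finset.sum_mul, mul_assoc]

theorem tE_mem {L : Submodule k (Matrix n n k)} {M : Matrix n n F} (hM : M ∈ ext F L) :
    tE M ∈ bcS F (L.map (Matrix.toLin' (R := k)).toLinearMap) := by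
  refine ext_induction (p := fun M => tE M ∈ bcS F (L.map (Matrix.toLin' (R := k)).toLinearMap))
    ?_ ?_ ?_ ?_ hM
  · intro x hx
    rw [tE_map]
    exact mem_bcS (Submodule.mem_map_of_mem hx)
  · rw [map_zero]
    exact Submodule.zero_mem _
  · intro x y h1 h2
    rw [map_add]
    exact Submodule.add_mem _ h1 h2
  · intro c x h1
    rw [map_smul]
    exact Submodule.smul_mem _ _ h1

theorem bcB_form (q : Matrix n n k) (z w : F ⊗[k] (n → k)) :
    bcB F (form q) z w = ee k F n z ⬝ᵥ (q.map (algebraMap k F)) *ᵥ ee k F n w := by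
  induction z with
  | zero => simp
  | add x y h1 h2 => rw [map_add, LinearMap.add_apply, h1, h2, map_add, add_dotProduct]
  | tmul c x =>
    induction w with
    | zero => simp
    | add x y h1 h2 => rw [map_add, h1, h2, map_add, Matrix.mulVec_add, dotProduct_add]
    | tmul d y =>
      rw [bcB_tmul, form_apply, ee_tmul, ee_tmul]
      simp only [Matrix.mulVec, dotProduct, Matrix.map_apply, Algebra.smul_def, map_sum, map_mul,
        Finset.mul_sum]
      refine Finset.sum_congr rfl fun i _ => Finset.sum_congr rfl fun j _ => ?_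
      ring

/-- the matrix of an operator of rank two -/
theorem tE_wdg (q : Matrix n n k) (a b : n → F) :
    tE (vecMulVec a (b ᵥ* q.map (algebraMap k F)) - vecMulVec b (a ᵥ* q.map (algebraMap k F))) =
      wdg (bcB F (form q)) ((ee k F n).symm b) ((ee k F n).symm a) := by
  refine LinearMap.ext fun z => ?_
  apply (ee k F n).injective
  rw [ee_tE, wdg_apply, map_sub, map_smul, map_smul, LinearEquiv.apply_symm_apply,
    LinearEquiv.apply_symm_apply, bcB_form, bcB_form, LinearEquiv.apply_symm_apply,
    LinearEquiv.apply_symm_apply, Matrix.sub_mulVec, Matrix.vecMulVec_mulVec,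
    Matrix.vecMulVec_mulVec, Matrix.dotProduct_mulVec, Matrix.dotProduct_mulVec]
  rw [op_smul_eq_smul, op_smul_eq_smul]

theorem map_mul_left (π : F →ₗ[k] k) (Y : Matrix n n k) (M : Matrix n n F) :
    (Y.map (algebraMap k F) * M).map π = Y * M.map π := by
  ext i j
  simp only [Matrix.map_apply, Matrix.mul_apply, map_sum, ← Algebra.smul_def, map_smul, smul_eq_mul]

theorem map_mul_right (π : F →ₗ[k] k) (Y : Matrix n n k) (M : Matrix n n F) :
    (M * Y.map (algebraMap k F)).map π = M.map π * Y := by
  ext i j
  simp only [Matrix.map_apply, Matrix.mul_apply, map_sum]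
  refine Finset.sum_congr rfl fun l _ => ?_
  rw [mul_comm (M i l), ← Algebra.smul_def, map_smul, smul_eq_mul, mul_comm]

/-- a criterion for the extension of a space of matrices -/
theorem mem_ext_of_map {G : Submodule k (Matrix n n k)} {M : Matrix n n F}
    (h : ∀ π : F →ₗ[k] k, M.map π ∈ G) : M ∈ ext F G := by
  classical
  let u := Basis.ofVectorSpace k F
  let T := Finset.univ.biUnion fun i : n => Finset.univ.biUnion fun j : n => (u.repr (M i j)).support
  have hM : M = ∑ t ∈ T, u t • (M.map (u.coord t)).map (algebraMap k F) := by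
    ext i j
    rw [Matrix.sum_apply]
    have h1 : M i j = ∑ t ∈ T, (u.repr (M i j)) t • u t := by
      conv_lhs => rw [← u.linearCombination_repr (M i j), Finsupp.linearCombination_apply]
      refine Finsupp.sum_of_support_subset _ ?_ _ (fun t _ => zero_smul _ _)
      exact (Finset.subset_biUnion_of_mem (fun j => (u.repr (M i j)).support) (Finset.mem_univ j)).trans
        (Finset.subset_biUnion_of_mem (fun i => Finset.univ.biUnion fun j : n =>
          (u.repr (M i j)).support) (Finset.mem_univ i))
    conv_lhs => rw [h1]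
    refine Finset.sum_congr rfl fun t _ => ?_
    rw [Matrix.smul_apply, Matrix.map_apply, Matrix.map_apply, Basis.coord_apply, Algebra.smul_def,
      smul_eq_mul, mul_comm]
  rw [hM]
  exact Submodule.sum_mem _ fun t _ => Submodule.smul_mem _ _ (mem_ext (h _))

end

end Pool.Agent.H851.KT
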