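import Mathlib
import Pool.Agent.H851.Ext
import Pool.Agent.H851.K3.Defs
import Pool.Graph.R_seed8.Y114.RM.Defs
import Pool.Graph.R_pool_sql_team_seeded_3dad9d7b.NH56.HY.Ord

/-!
# Motives of K3 type: Hodge and Tate endomorphisms, and the Lie algebras
-/

set_option autoImplicit false

namespace Pool.Agent.H851.KT

open Matrix Pool.Agent.Y114.RM
open Pool.Agent.NH56.HY (GK tw)

/-- A polarized rational Hodge structure of K3 type on `V = ℚ ^ n`, twisted to weight zero: the line of
the classes of type `(1, -1)` is spanned by `v`, and the symmetric form `q` satisfies `q(v, v) = 0` and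
`q(v, v̄) > 0`, and is negative definite on the real classes of type `(0, 0)` (those orthogonal to `v`).
For example `V` is the primitive part of `H^2(X, ℚ(1))` for a surface `X` with `h^{2,0} = 1`, `v` is the
class of a holomorphic two-form and `q` the intersection form; or `V = H^2(X, ℚ(1))`, and `q` is the
intersection form with the sign changed on the class of an ample divisor. -/
structure K3Hodge (n : Type) [Fintype n] [DecidableEq n] where
  q : Matrix n n ℚ
  v : n → ℂ
  symm : qᵀ = q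
  isotropic : v ⬝ᵥ q.map (algebraMap ℚ ℂ) *ᵥ v = 0
  positive : 0 < (star v ⬝ᵥ q.map (algebraMap ℚ ℂ) *ᵥ v).re
  negative : ∀ x : n → ℝ, x ≠ 0 → v ⬝ᵥ q.map (algebraMap ℚ ℂ) *ᵥ (fun i => (x i : ℂ)) = 0 →
    x ⬝ᵥ q.map (algebraMap ℚ ℝ) *ᵥ x < 0

namespace K3Hodge

variable {n : Type} [Fintype n] [DecidableEq n] (H : K3Hodge n)

/-- The Hodge operator: it acts as `p` on the classes of type `(p, -p)`, so it multiplies `v` by `1`, the
complex conjugate of `v` by `-1`, and it kills the classes orthogonal to them. -/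
noncomputable def D : Matrix n n ℂ :=
  (star H.v ⬝ᵥ H.q.map (algebraMap ℚ ℂ) *ᵥ H.v)⁻¹ •
    (vecMulVec H.v (star H.v ᵥ* H.q.map (algebraMap ℚ ℂ)) -
      vecMulVec (star H.v) (H.v ᵥ* H.q.map (algebraMap ℚ ℂ)))

/-- `Y` is an endomorphism of the rational Hodge structure -/
def IsHodgeEnd (Y : Matrix n n ℚ) : Prop := Y.map (algebraMap ℚ ℂ) * H.D = H.D * Y.map (algebraMap ℚ ℂ)

end K3Hodge

section

variable {K : Type} [Field K] {ℓ : ℕ} [Fact ℓ.Prime] {n : Type} [Fintype n] [DecidableEq n]

/-- `Y` is a (potential) Tate endomorphism: it commutes with an open subgroup of the Galois group -/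
def IsTateEnd (ρ : GK K →* Matrix n n ℚ_[ℓ]) (Y : Matrix n n ℚ_[ℓ]) : Prop :=
  ∃ U : Subgroup (GK K), IsOpen (U : Set (GK K)) ∧ ∀ g ∈ U, Y * ρ g = ρ g * Y

/-- the representation on `V(1)`: the twist of `ρ` by the inverse of `χ` -/
noncomputable def rep {Γ : Type} [Group Γ] (χ : Γ →* ℚ_[ℓ]) (ρ : Γ →* Matrix n n ℚ_[ℓ]) :
    Representation ℚ_[ℓ] Γ (n → ℚ_[ℓ]) :=
  ((Matrix.toLinAlgEquiv' : Matrix n n ℚ_[ℓ] ≃ₐ[ℚ_[ℓ]] _).toAlgHom.toMonoidHom).comp (tw χ ρ)

/-- the matrices which, as elements of the Lie algebra, kill all Tate tensors on `V(1)` and its dual: the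
tensors which are fixed by a subgroup of finite index of the Galois group. If `ρ` is semisimple this is
the Lie algebra of the Zariski closure of the image of the Galois group in `GL(V(1))`. -/
def tateLie (χ : GK K →* ℚ_[ℓ]) (ρ : GK K →* Matrix n n ℚ_[ℓ]) : Submodule ℚ_[ℓ] (Matrix n n ℚ_[ℓ]) where
  carrier := {X | ∀ (m : ℕ) (φ : Tensor ℚ_[ℓ] (n → ℚ_[ℓ]) m), TateTensor (rep χ ρ) φ →
    KillsTensor (Matrix.toLin' X) φ}
  zero_mem' := by
    intro m φ _ v
    refine Finset.sum_eq_zero fun l _ => ?_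
    have h1 : lie (Matrix.toLin' (0 : Matrix n n ℚ_[ℓ])) (v l) = 0 := by
      rw [map_zero]
      refine Prod.ext rfl ?_
      refine LinearMap.ext fun x => ?_
      simp [lie, LinearMap.dualMap_apply]
    rw [h1]
    exact φ.map_update_zero v l
  add_mem' := by
    intro X Y hX hY m φ hφ v
    have h1 : ∀ l, lie (Matrix.toLin' (X + Y)) (v l) =
        lie (Matrix.toLin' X) (v l) + lie (Matrix.toLin' Y) (v l) := by
      intro l
      rw [map_add]
      refine Prod.ext rfl ?_
      refine LinearMap.ext fun x => ?_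
      simp [lie, LinearMap.dualMap_apply]
      ring
    simp only [h1, φ.map_update_add, Finset.sum_add_distrib]
    rw [hX m φ hφ v, hY m φ hφ v, add_zero]
  smul_mem' := by
    intro c X hX m φ hφ v
    have h1 : ∀ l, lie (Matrix.toLin' (c • X)) (v l) = c • lie (Matrix.toLin' X) (v l) := by
      intro l
      rw [map_smul]
      refine Prod.ext rfl ?_
      refine LinearMap.ext fun x => ?_
      simp [lie, LinearMap.dualMap_apply]
    simp only [h1, φ.map_update_smul]
    rw [← Finset.smul_sum, hX m φ hφ v, smul_zero]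

end

/-- the matrices which commute with `𝔪`; if `𝔪` is the Lie algebra of the motivic Galois group of `M` these
are the motivated endomorphisms of `M`, over the algebraic closure of the base field -/
def endo {n : Type} [Fintype n] [DecidableEq n] (𝔪 : Submodule ℚ (Matrix n n ℚ)) :
    Submodule ℚ (Matrix n n ℚ) where
  carrier := {Y | ∀ X ∈ 𝔪, X * Y = Y * X}
  zero_mem' := fun X _ => by rw [mul_zero, zero_mul]
  add_mem' := fun {a b} ha hb X hX => by rw [mul_add, add_mul, ha X hX, hb X hX]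
  smul_mem' := fun c a ha X hX => by rw [mul_smul_comm, smul_mul_assoc, ha X hX]

/-- The properties of the Lie algebra `𝔪` of the motivic Galois group of `M(1)` which are used, for a
motive `M` of K3 type with the Hodge realization `H` and the `ℓ`-adic realization `ρ`: motivated classes
are Hodge classes (`hodge`) and Tate classes (`tate`, `classes`), and the form `q` is motivated (`skew`). -/
structure IsMotivicLie {K : Type} [Field K] {ℓ : ℕ} [Fact ℓ.Prime] {n : Type} [Fintype n]
    [DecidableEq n] (H : K3Hodge n) (χ : GK K →* ℚ_[ℓ]) (ρ : GK K →* Matrix n n ℚ_[ℓ])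
    (𝔪 : Submodule ℚ (Matrix n n ℚ)) : Prop where
  bracket : ∀ x ∈ 𝔪, ∀ y ∈ 𝔪, x * y - y * x ∈ 𝔪
  skew : ∀ X ∈ 𝔪, Xᵀ * H.q + H.q * X = 0
  hodge : H.D ∈ ext ℂ 𝔪
  tate : tateLie χ ρ ≤ ext ℚ_[ℓ] 𝔪
  classes : ∀ x : n → ℚ, (∀ X ∈ 𝔪, X *ᵥ x = 0) →
    Pool.Agent.H851.K3.IsTate χ ρ (fun i => (x i : ℚ_[ℓ]))

end Pool.Agent.H851.KT
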