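import Mathlib
import Pool.Agent.H851.KT.Defs
import Pool.Agent.H851.KT.Br
import Pool.Graph.R_pool_sql_team_seeded_3dad9d7b.NH56.HY.Mtd

/-!
# The Mumford-Tate Lie algebra of a Hodge structure of K3 type
-/

set_option autoImplicit false

namespace Pool.Agent.H851.KT

open Module TensorProduct Pool.Agent.Y114.RM Matrix
open Pool.Agent.NH56.HY (mtLie)

section general

variable {n : Type} [Fintype n] [DecidableEq n]

/-- the skew matrices -/
def so {k : Type} [Field k] (q : Matrix n n k) : Submodule k (Matrix n n k) where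
  carrier := {X | Xᵀ * q + q * X = 0}
  zero_mem' := by simp
  add_mem' := by
    intro a b ha hb
    change (a + b)ᵀ * q + q * (a + b) = 0
    have ha' : aᵀ * q + q * a = 0 := ha
    have hb' : bᵀ * q + q * b = 0 := hb
    rw [Matrix.transpose_add, Matrix.add_mul, Matrix.mul_add]
    calc aᵀ * q + bᵀ * q + (q * a + q * b) = (aᵀ * q + q * a) + (bᵀ * q + q * b) := by abel
      _ = 0 := by rw [ha', hb', add_zero]
  smul_mem' := by
    intro c a ha
    change (c • a)ᵀ * q + q * (c • a) = 0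
    have ha' : aᵀ * q + q * a = 0 := ha
    rw [Matrix.transpose_smul, Matrix.smul_mul, Matrix.mul_smul, ← smul_add, ha', smul_zero]

theorem mem_so {k : Type} [Field k] {q X : Matrix n n k} : X ∈ so q ↔ Xᵀ * q + q * X = 0 := Iff.rfl

theorem so_bracket {k : Type} [Field k] {q : Matrix n n k} {X Y : Matrix n n k} (hX : X ∈ so q)
    (hY : Y ∈ so q) : X * Y - Y * X ∈ so q := by
  rw [mem_so] at hX hY ⊢
  have h1 : Xᵀ * q = - (q * X) := by rw [← add_eq_zero_iff_eq_neg]; exact hX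
  have h2 : Yᵀ * q = - (q * Y) := by rw [← add_eq_zero_iff_eq_neg]; exact hY
  rw [Matrix.transpose_sub, Matrix.transpose_mul, Matrix.transpose_mul, Matrix.sub_mul,
    Matrix.mul_assoc, h1, Matrix.mul_neg, ← Matrix.mul_assoc, h2, Matrix.mul_assoc Xᵀ, h2,
    Matrix.mul_neg, ← Matrix.mul_assoc Xᵀ, h1, Matrix.mul_sub]
  simp only [Matrix.neg_mul, neg_neg, Matrix.mul_assoc]
  abel

/-- the matrices commuting with `Y` -/
def cent {k : Type} [Field k] (Y : Matrix n n k) : Submodule k (Matrix n n k) where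
  carrier := {X | X * Y = Y * X}
  zero_mem' := by simp
  add_mem' := by
    intro a b ha hb
    change (a + b) * Y = Y * (a + b)
    have ha' : a * Y = Y * a := ha
    have hb' : b * Y = Y * b := hb
    rw [Matrix.add_mul, Matrix.mul_add, ha', hb']
  smul_mem' := by
    intro c a ha
    change (c • a) * Y = Y * (c • a)
    have ha' : a * Y = Y * a := ha
    rw [Matrix.smul_mul, Matrix.mul_smul, ha']

theorem mem_cent {k : Type} [Field k] {X Y : Matrix n n k} : X ∈ cent Y ↔ X * Y = Y * X := Iff.rfl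

theorem cent_bracket {k : Type} [Field k] {Y : Matrix n n k} {a b : Matrix n n k} (ha : a ∈ cent Y)
    (hb : b ∈ cent Y) : a * b - b * a ∈ cent Y := by
  rw [mem_cent] at ha hb ⊢
  rw [Matrix.sub_mul, Matrix.mul_sub, Matrix.mul_assoc, hb, ← Matrix.mul_assoc, ha,
    Matrix.mul_assoc b a, ha, ← Matrix.mul_assoc b Y, hb, Matrix.mul_assoc, Matrix.mul_assoc]

variable {k F : Type} [Field k] [Field F] [Algebra k F]

theorem mem_ext_so {q : Matrix n n k} {M : Matrix n n F}
    (h : Mᵀ * q.map (algebraMap k F) + q.map (algebraMap k F) * M = 0) : M ∈ ext F (so q) := by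
  refine mem_ext_of_map fun π => ?_
  rw [mem_so, ← Matrix.transpose_map, ← map_mul_left, ← map_mul_right]
  ext i j
  rw [Matrix.add_apply, Matrix.map_apply, Matrix.map_apply, ← map_add, ← Matrix.add_apply, h]
  simp

theorem mem_ext_cent {Y : Matrix n n k} {M : Matrix n n F}
    (h : M * Y.map (algebraMap k F) = Y.map (algebraMap k F) * M) : M ∈ ext F (cent Y) := by
  refine mem_ext_of_map fun π => ?_
  rw [mem_cent, ← map_mul_left, ← map_mul_right, h]

theorem ext_comm {L : Submodule k (Matrix n n k)} {Y : Matrix n n k} (h : ∀ X ∈ L, X * Y = Y * X)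
    {M : Matrix n n F} (hM : M ∈ ext F L) :
    M * Y.map (algebraMap k F) = Y.map (algebraMap k F) * M := by
  refine ext_induction (p := fun M => M * Y.map (algebraMap k F) = Y.map (algebraMap k F) * M)
    ?_ ?_ ?_ ?_ hM
  · intro x hx
    rw [← map_mul', ← map_mul', h x hx]
  · rw [zero_mul, mul_zero]
  · intro x y h1 h2
    rw [add_mul, mul_add, h1, h2]
  · intro c x h1
    rw [smul_mul_assoc, mul_smul_comm, h1]

/-- semisimplicity from complements -/
theorem alg_semisimple' {V : Type} [AddCommGroup V] [Module k V] {L : Submodule k (End k V)}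
    (h : ∀ W : Submodule k V, (∀ X ∈ L, ∀ x ∈ W, X x ∈ W) →
      ∃ W' : Submodule k V, (∀ X ∈ L, ∀ x ∈ W', X x ∈ W') ∧ IsCompl W W') :
    IsSemisimpleModule (alg L) V := by
  refine (isSemisimpleModule_iff _ _).2 ⟨fun N => ?_⟩
  obtain ⟨W', h1, h2⟩ := h (N.restrictScalars k) (fun X hX x hx =>
    N.smul_mem (⟨X, le_alg hX⟩ : alg L) hx)
  refine ⟨toSub W' h1, ?_⟩
  rw [isCompl_iff, disjoint_iff, codisjoint_iff]
  constructor
  · rw [eq_bot_iff]
    intro x hx
    have h3 : x ∈ N.restrictScalars k ⊓ W' := ⟨hx.1, hx.2⟩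
    rw [h2.inf_eq_bot] at h3
    exact (Submodule.mem_bot _).2 ((Submodule.mem_bot _).1 h3)
  · rw [eq_top_iff]
    intro x _
    have h3 : x ∈ N.restrictScalars k ⊔ W' := by
      rw [h2.sup_eq_top]
      trivial
    obtain ⟨a, ha, b, hb, rfl⟩ := Submodule.mem_sup.1 h3
    exact Submodule.add_mem_sup ha hb

end general

namespace K3Hodge

variable {n : Type} [Fintype n] [DecidableEq n] (H : K3Hodge n)

/-- the form over `ℂ` -/
noncomputable def qC : Matrix n n ℂ := H.q.map (algebraMap ℚ ℂ)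

noncomputable def c : ℂ := star H.v ⬝ᵥ H.qC *ᵥ H.v

theorem qC_symm : H.qCᵀ = H.qC := by
  rw [qC, ← Matrix.transpose_map, H.symm]

theorem form_comm (x y : n → ℂ) : x ⬝ᵥ H.qC *ᵥ y = y ⬝ᵥ H.qC *ᵥ x := by
  rw [Matrix.dotProduct_mulVec, ← Matrix.mulVec_transpose, H.qC_symm, dotProduct_comm]

theorem star_form (x y : n → ℂ) : star (x ⬝ᵥ H.qC *ᵥ y) = star x ⬝ᵥ H.qC *ᵥ star y := by
  simp only [dotProduct, Matrix.mulVec, star_sum, star_mul', Pi.star_apply, qC, Matrix.map_apply]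
  refine Finset.sum_congr rfl fun i _ => ?_
  congr 1
  refine Finset.sum_congr rfl fun j _ => ?_
  congr 1
  change (starRingEnd ℂ) _ = _
  simp

theorem c_ne : H.c ≠ 0 := by
  intro h
  have h1 := H.positive
  change 0 < H.c.re at h1
  rw [h, Complex.zero_re] at h1
  exact lt_irrefl _ h1

theorem v_v : H.v ⬝ᵥ H.qC *ᵥ H.v = 0 := H.isotropic

theorem sv_v : star H.v ⬝ᵥ H.qC *ᵥ H.v = H.c := rfl

theorem v_sv : H.v ⬝ᵥ H.qC *ᵥ star H.v = H.c := by rw [form_comm, sv_v]

theorem sv_sv : star H.v ⬝ᵥ H.qC *ᵥ star H.v = 0 := by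
  rw [← star_form, v_v, star_zero]

theorem D_eq : H.D = H.c⁻¹ • (vecMulVec H.v (star H.v ᵥ* H.qC) - vecMulVec (star H.v) (H.v ᵥ* H.qC)) :=
  rfl

theorem D_mulVec (x : n → ℂ) : H.D *ᵥ x =
    H.c⁻¹ • ((star H.v ⬝ᵥ H.qC *ᵥ x) • H.v - (H.v ⬝ᵥ H.qC *ᵥ x) • star H.v) := by
  rw [D_eq, Matrix.smul_mulVec, Matrix.sub_mulVec, Matrix.vecMulVec_mulVec, Matrix.vecMulVec_mulVec,
    op_smul_eq_smul, op_smul_eq_smul, Matrix.dotProduct_mulVec, Matrix.dotProduct_mulVec]

theorem D_skew : H.Dᵀ * H.qC + H.qC * H.D = 0 := by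
  apply Matrix.toLin'.injective
  apply LinearMap.ext
  intro y
  rw [Matrix.toLin'_apply, map_zero, LinearMap.zero_apply]
  apply dotProduct_eq_zero
  intro x
  rw [dotProduct_comm, Matrix.add_mulVec, dotProduct_add, ← Matrix.mulVec_mulVec,
    ← Matrix.mulVec_mulVec, Matrix.dotProduct_mulVec x H.Dᵀ, Matrix.vecMul_transpose, D_mulVec,
    D_mulVec, smul_dotProduct, sub_dotProduct, smul_dotProduct, smul_dotProduct, Matrix.mulVec_smul,
    Matrix.mulVec_sub, Matrix.mulVec_smul, Matrix.mulVec_smul, dotProduct_smul, dotProduct_sub,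
    dotProduct_smul, dotProduct_smul, H.form_comm x H.v, H.form_comm x (star H.v)]
  simp only [smul_eq_mul]
  ring

/-- the rational form is nondegenerate -/
theorem nondeg (x : n → ℚ) (h : ∀ y, form H.q x y = 0) : x = 0 := by
  by_contra hx
  have h1 : x ᵥ* H.q = 0 := by
    apply dotProduct_eq_zero
    intro y
    rw [← Matrix.dotProduct_mulVec, ← form_apply]
    exact h y
  have h2 : (fun i => (x i : ℂ)) ᵥ* H.qC = 0 := by
    funext j
    have h3 := congrFun h1 j
    simp only [Matrix.vecMul, dotProduct, Pi.zero_apply] at h3 ⊢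
    rw [← Rat.cast_zero, ← h3]
    push_cast
    rfl
  have h3 := H.negative (fun i => (x i : ℝ)) (fun h0 => hx (by
    funext i
    have := congrFun h0 i
    simpa using this)) (by
    have h4 := H.form_comm H.v (fun i => (x i : ℂ))
    rw [Matrix.dotProduct_mulVec (fun i => (x i : ℂ)), h2, zero_dotProduct] at h4
    have h5 : (fun i => (((x i : ℝ)) : ℂ)) = fun i => (x i : ℂ) := by
      funext i
      norm_num
    rw [h5]
    exact h4)
  have h4 : (fun i => (x i : ℝ)) ᵥ* H.q.map (algebraMap ℚ ℝ) = 0 := by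
    funext j
    have h3 := congrFun h1 j
    simp only [Matrix.vecMul, dotProduct, Pi.zero_apply] at h3 ⊢
    rw [← Rat.cast_zero, ← h3]
    push_cast
    rfl
  rw [Matrix.dotProduct_mulVec, h4, zero_dotProduct] at h3
  exact lt_irrefl _ h3

/-- a rational class in the kernel of `D` is zero if its square is zero -/
theorem anisotropic (x : n → ℚ) (h : H.v ⬝ᵥ H.qC *ᵥ (fun i => (x i : ℂ)) = 0)
    (hx : x ⬝ᵥ H.q *ᵥ x = 0) : x = 0 := by
  by_contra hne
  have h3 := H.negative (fun i => (x i : ℝ)) (fun h0 => hne (by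
    funext i
    have := congrFun h0 i
    simpa using this)) (by
    have h5 : (fun i => (((x i : ℝ)) : ℂ)) = fun i => (x i : ℂ) := by
      funext i
      norm_num
    rw [h5]
    exact h)
  have h4 : (fun i => (x i : ℝ)) ⬝ᵥ H.q.map (algebraMap ℚ ℝ) *ᵥ (fun i => (x i : ℝ)) =
      ((x ⬝ᵥ H.q *ᵥ x : ℚ) : ℝ) := by
    simp only [Matrix.mulVec, dotProduct, Matrix.map_apply]
    push_cast
    rfl
  rw [h4, hx, Rat.cast_zero] at h3
  exact lt_irrefl _ h3

/-- the Mumford-Tate Lie algebra, as endomorphisms -/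
noncomputable def LL : Submodule ℚ (End ℚ (n → ℚ)) :=
  (mtLie H.D).map (Matrix.toLin' (R := ℚ)).toLinearMap

theorem mem_LL {X : Matrix n n ℚ} : Matrix.toLin' X ∈ H.LL ↔ X ∈ mtLie H.D := by
  constructor
  · rintro ⟨Y, hY, h⟩
    have : Y = X := Matrix.toLin'.injective h
    rwa [← this]
  · intro h
    exact ⟨X, h, rfl⟩

theorem mt_so : mtLie H.D ≤ so H.q :=
  sInf_le ⟨fun _ hx _ hy => so_bracket hx hy, mem_ext_so H.D_skew⟩

theorem mt_cent {Y : Matrix n n ℚ} (h : H.IsHodgeEnd Y) : mtLie H.D ≤ cent Y :=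
  sInf_le ⟨fun _ hx _ hy => cent_bracket hx hy, mem_ext_cent h.symm⟩

theorem mt_bracket : ∀ x ∈ mtLie H.D, ∀ y ∈ mtLie H.D, x * y - y * x ∈ mtLie H.D :=
  (Pool.Agent.NH56.HY.t_MTD n H.D).1

theorem D_mem : H.D ∈ ext ℂ (mtLie H.D) := (Pool.Agent.NH56.HY.t_MTD n H.D).2

theorem LL_lie : IsLie H.LL := by
  rintro _ ⟨X, hX, rfl⟩ _ ⟨Y, hY, rfl⟩
  refine ⟨X * Y - Y * X, H.mt_bracket X hX Y hY, ?_⟩
  change Matrix.toLin' (X * Y - Y * X) = Matrix.toLin' X * Matrix.toLin' Y -
    Matrix.toLin' Y * Matrix.toLin' X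
  rw [map_sub, Matrix.toLin'_mul, Matrix.toLin'_mul]
  rfl

theorem LL_skew : ∀ X ∈ H.LL, Skew (form H.q) X := by
  rintro _ ⟨X, hX, rfl⟩
  exact skew_iff.2 (H.mt_so hX)

/-- the form on the image of a rational class under the complexified Lie algebra -/
theorem isotropic_of {W : Submodule ℚ (n → ℚ)} (hW : ∀ X ∈ H.LL, ∀ x ∈ W, X x ∈ W)
    {x : n → ℚ} (hx : x ∈ W) (hx' : ∀ y ∈ W, form H.q x y = 0) :
    H.v ⬝ᵥ H.qC *ᵥ (fun i => (x i : ℂ)) = 0 := by
  set xC : n → ℂ := fun i => (x i : ℂ) with hxC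
  have key : ∀ M ∈ ext ℂ (mtLie H.D), ∀ M' ∈ ext ℂ (mtLie H.D),
      (M *ᵥ xC) ⬝ᵥ H.qC *ᵥ (M' *ᵥ xC) = 0 := by
    intro M hM
    refine ext_induction (p := fun M => ∀ M' ∈ ext ℂ (mtLie H.D),
      (M *ᵥ xC) ⬝ᵥ H.qC *ᵥ (M' *ᵥ xC) = 0) ?_ ?_ ?_ ?_ hM
    · intro X hX M' hM'
      refine ext_induction (p := fun M' => ((X.map (algebraMap ℚ ℂ)) *ᵥ xC) ⬝ᵥ
        H.qC *ᵥ (M' *ᵥ xC) = 0) ?_ ?_ ?_ ?_ hM'
      · intro X' hX'
        have h1 : form H.q (X *ᵥ x) (X' *ᵥ x) = 0 := by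
          have h2 := H.LL_skew _ (H.mem_LL.2 hX) x (X' *ᵥ x)
          rw [Matrix.toLin'_apply, Matrix.toLin'_apply] at h2
          rw [h2, neg_eq_zero]
          exact hx' _ (hW _ (H.mem_LL.2 hX) _ (hW _ (H.mem_LL.2 hX') _ hx))
        have h2 : ∀ Z : Matrix n n ℚ, (Z.map (algebraMap ℚ ℂ)) *ᵥ xC =
            fun i => (((Z *ᵥ x) i : ℚ) : ℂ) := by
          intro Z
          funext i
          simp only [hxC, Matrix.mulVec, dotProduct, Matrix.map_apply]
          push_cast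
          rfl
        rw [h2, h2]
        have h3 : (fun i => (((X *ᵥ x) i : ℚ) : ℂ)) ⬝ᵥ H.qC *ᵥ (fun i => (((X' *ᵥ x) i : ℚ) : ℂ)) =
            ((form H.q (X *ᵥ x) (X' *ᵥ x) : ℚ) : ℂ) := by
          rw [form_apply]
          simp only [qC, dotProduct, Matrix.mulVec, Matrix.map_apply]
          push_cast
          rfl
        rw [h3, h1, Rat.cast_zero]
      · rw [Matrix.zero_mulVec, Matrix.mulVec_zero, dotProduct_zero]
      · intro a b h1 h2
        rw [Matrix.add_mulVec, Matrix.mulVec_add, dotProduct_add, h1, h2, add_zero]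
      · intro c a h1
        rw [Matrix.smul_mulVec, Matrix.mulVec_smul, dotProduct_smul, h1, smul_zero]
    · intro M' _
      rw [Matrix.zero_mulVec, zero_dotProduct]
    · intro a b h1 h2 M' hM'
      rw [Matrix.add_mulVec, add_dotProduct, h1 M' hM', h2 M' hM', add_zero]
    · intro c a h1 M' hM'
      rw [Matrix.smul_mulVec, smul_dotProduct, h1 M' hM', smul_zero]
  have h1 := key _ H.D_mem _ H.D_mem
  have hstar : star xC = xC := by
    funext i
    change (starRingEnd ℂ) _ = _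
    simp [hxC]
  have h2 : star H.v ⬝ᵥ H.qC *ᵥ xC = star (H.v ⬝ᵥ H.qC *ᵥ xC) := by
    rw [star_form, hstar]
  rw [D_mulVec, smul_dotProduct, Matrix.mulVec_smul, dotProduct_smul, sub_dotProduct,
    smul_dotProduct, smul_dotProduct, Matrix.mulVec_sub, Matrix.mulVec_smul, Matrix.mulVec_smul,
    dotProduct_sub, dotProduct_sub, dotProduct_smul, dotProduct_smul, dotProduct_smul,
    dotProduct_smul, v_v, v_sv, sv_v, sv_sv, h2] at h1
  simp only [smul_eq_mul, mul_zero, zero_sub, sub_zero] at h1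
  set α := H.v ⬝ᵥ H.qC *ᵥ xC with hα
  have h3 : star α * α = 0 := by
    have hc := H.c_ne
    have h4 : H.c⁻¹ * (H.c⁻¹ * (star α * -(α * H.c) - α * (star α * H.c))) =
        -(2 * H.c⁻¹ * (star α * α)) := by
      field_simp
      ring
    rw [h4, neg_eq_zero, mul_eq_zero] at h1
    rcases h1 with h1 | h1
    · exact absurd h1 (mul_ne_zero two_ne_zero (inv_ne_zero hc))
    · exact h1
  rcases mul_eq_zero.1 h3 with h4 | h4
  · exact star_eq_zero.1 h4
  · exact h4

theorem LL_semisimple : IsSemisimpleModule (alg H.LL) (n → ℚ) := by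
  refine alg_semisimple' fun W hW => ?_
  have href : LinearMap.BilinForm.IsRefl (form H.q) := by
    intro x y h
    rw [form_symm H.symm]
    exact h
  refine ⟨LinearMap.BilinForm.orthogonal (form H.q) W, ?_, ?_⟩
  · intro X hX x hx
    rw [LinearMap.BilinForm.mem_orthogonal_iff] at hx ⊢
    intro y hy
    change form H.q y (X x) = 0
    have h1 := H.LL_skew X hX y x
    have h2 : form H.q (X y) x = 0 := hx (X y) (hW X hX y hy)
    rw [h2] at h1
    exact neg_eq_zero.1 h1.symm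
  · rw [LinearMap.BilinForm.isCompl_orthogonal_iff_disjoint href, disjoint_iff, eq_bot_iff]
    intro x hx
    rw [Submodule.mem_bot]
    have h1 : ∀ y ∈ W, form H.q x y = 0 := by
      intro y hy
      rw [form_symm H.symm]
      exact LinearMap.BilinForm.mem_orthogonal_iff.1 hx.2 y hy
    refine H.anisotropic x (H.isotropic_of hW hx.1 h1) ?_
    rw [← form_apply]
    exact h1 x hx.1

/-- **Theorem (Zarhin).** The Mumford-Tate Lie algebra consists of the skew matrices which commute with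
all endomorphisms of the Hodge structure. -/
theorem mt_main (X : Matrix n n ℚ) : X ∈ mtLie H.D ↔
    Xᵀ * H.q + H.q * X = 0 ∧ ∀ Y, H.IsHodgeEnd Y → X * Y = Y * X := by
  constructor
  · intro hX
    exact ⟨H.mt_so hX, fun Y hY => H.mt_cent hY hX⟩
  rintro ⟨hX1, hX2⟩
  set L := H.LL with hLdef
  set v' := (ee ℚ ℂ n).symm H.v with hv'
  set w' := (ee ℚ ℂ n).symm (star H.v) with hw'
  set B := bcB ℂ (form H.q) with hB
  have b1 : B v' v' = 0 := by
    rw [hB, bcB_form, hv', LinearEquiv.apply_symm_apply]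
    exact H.v_v
  have b2 : B w' w' = 0 := by
    rw [hB, bcB_form, hw', LinearEquiv.apply_symm_apply]
    exact H.sv_sv
  have b3 : B v' w' = H.c := by
    rw [hB, bcB_form, hv', hw', LinearEquiv.apply_symm_apply, LinearEquiv.apply_symm_apply]
    exact H.v_sv
  have b4 : B w' v' = H.c := by
    rw [hB, bcB_form, hv', hw', LinearEquiv.apply_symm_apply, LinearEquiv.apply_symm_apply]
    exact H.sv_v
  have hDm : tE H.D ∈ bcS ℂ L := tE_mem H.D_mem
  have hDw : tE H.D = H.c⁻¹ • wdg B w' v' := by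
    rw [D_eq, map_smul]
    congr 1
    exact tE_wdg H.q H.v (star H.v)
  have hN1 : wdg B (H.c⁻¹ • w') v' ∈ bcS ℂ L := by
    rw [wdg_swap, wdg_smul, wdg_swap B v' w', smul_neg, neg_neg, ← hDw]
    exact hDm
  have hN2 : wdg B (H.c⁻¹ • v') w' ∈ bcS ℂ L := by
    rw [wdg_swap, wdg_smul, ← hDw]
    exact Submodule.neg_mem _ hDm
  have hbig : L = big (form H.q) L := by
    refine eq_big H.nondeg H.LL_lie H.LL_skew H.LL_semisimple ?_
    intro P hPP hPL hPker a ha
    have hPv : ∀ z : ℂ ⊗[ℚ] (n → ℚ), (∀ Z ∈ big (form H.q) L,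
        (∀ X ∈ L, LinearMap.trace ℚ (n → ℚ) (Z * X) = 0) → Z.baseChange ℂ z = 0) →
        P.baseChange ℂ z = 0 := by
      intro z hz
      refine eq_zero_of_pv _ fun π => ?_
      rw [Pool.Agent.Y114.RM.pv_bc]
      refine hPker _ fun Z hZ hZt => ?_
      rw [← Pool.Agent.Y114.RM.pv_bc, hz Z hZ hZt, map_zero]
    have hPv1 : P.baseChange ℂ v' = 0 := hPv v' fun Z hZ hZt => by
      refine kill_bc (C := ℂ) (form_symm H.symm) H.nondeg H.LL_skew H.LL_lie H.LL_semisimple b1
        (v' := H.c⁻¹ • w') ?_ ?_ hN1 hZ hZt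
      · change B (H.c⁻¹ • w') (H.c⁻¹ • w') = 0
        rw [map_smul, map_smul, LinearMap.smul_apply, b2, smul_zero, smul_zero]
      · change B v' (H.c⁻¹ • w') = 1
        rw [map_smul, b3, smul_eq_mul, inv_mul_cancel₀ H.c_ne]
    have hPv2 : P.baseChange ℂ w' = 0 := hPv w' fun Z hZ hZt => by
      refine kill_bc (C := ℂ) (form_symm H.symm) H.nondeg H.LL_skew H.LL_lie H.LL_semisimple b2
        (v' := H.c⁻¹ • v') ?_ ?_ hN2 hZ hZt
      · change B (H.c⁻¹ • v') (H.c⁻¹ • v') = 0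
        rw [map_smul, map_smul, LinearMap.smul_apply, b1, smul_zero, smul_zero]
      · change B w' (H.c⁻¹ • v') = 1
        rw [map_smul, b4, smul_eq_mul, inv_mul_cancel₀ H.c_ne]
    have hDP : tE H.D * P.baseChange ℂ = P.baseChange ℂ * tE H.D := bcS_comm hPL _ hDm
    have hDa : tE H.D (1 ⊗ₜ a) = 0 := by
      have h1 : P.baseChange ℂ ((1 : ℂ) ⊗ₜ[ℚ] a) = 1 ⊗ₜ a := by
        rw [LinearMap.baseChange_tmul, ha]
      have h2 := LinearMap.congr_fun hDP (1 ⊗ₜ a)
      rw [Module.End.mul_apply, Module.End.mul_apply, h1, hDw, LinearMap.smul_apply, wdg_apply,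
        map_smul, map_sub, map_smul, map_smul, hPv1, hPv2, smul_zero, smul_zero, sub_self,
        smul_zero] at h2
      rw [hDw, LinearMap.smul_apply, wdg_apply]
      exact h2
    have hDa' : H.D *ᵥ (fun i => ((a i : ℚ) : ℂ)) = 0 := by
      have h1 := ee_tE (k := ℚ) H.D ((1 : ℂ) ⊗ₜ[ℚ] a)
      rw [hDa, map_zero, ee_one] at h1
      exact h1.symm
    -- the endomorphism `x ↦ q(a, x) a`
    set Y : Matrix n n ℚ := vecMulVec a (a ᵥ* H.q) with hY
    have hYl : Matrix.toLin' Y = (form H.q a).smulRight a := by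
      refine LinearMap.ext fun x => ?_
      rw [Matrix.toLin'_apply, LinearMap.smulRight_apply, form_apply, hY, Matrix.vecMulVec_mulVec,
        op_smul_eq_smul, Matrix.dotProduct_mulVec]
    have hYH : H.IsHodgeEnd Y := by
      have e1 : Y.map (algebraMap ℚ ℂ) = vecMulVec (fun i => ((a i : ℚ) : ℂ))
          ((fun i => ((a i : ℚ) : ℂ)) ᵥ* H.qC) := by
        ext i j
        simp only [hY, Matrix.map_apply, Matrix.vecMulVec_apply, Matrix.vecMul, dotProduct, qC,
          map_mul, map_sum]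
        rfl
      unfold IsHodgeEnd
      rw [e1, Matrix.mul_vecMulVec, hDa', Matrix.vecMulVec_mul, Matrix.vecMul_vecMul]
      have e2 : H.qC * H.D = - (H.Dᵀ * H.qC) := by
        rw [eq_neg_iff_add_eq_zero, add_comm]
        exact H.D_skew
      rw [e2, Matrix.vecMul_neg, ← Matrix.vecMul_vecMul, Matrix.vecMul_transpose, hDa',
        Matrix.zero_vecMul, neg_zero]
      ext i j
      simp [Matrix.vecMulVec_apply]
    rintro _ ⟨X, hX, rfl⟩
    have h1 : X * Y = Y * X := H.mt_cent hYH hX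
    rw [← hYl]
    change Matrix.toLin' X * Matrix.toLin' Y = Matrix.toLin' Y * Matrix.toLin' X
    have h2 := congrArg Matrix.toLin' h1
    rw [Matrix.toLin'_mul, Matrix.toLin'_mul] at h2
    exact h2
  rw [← mem_LL, ← hLdef, hbig]
  refine ⟨skew_iff.2 hX1, fun Y hY => ?_⟩
  have h1 : H.IsHodgeEnd (LinearMap.toMatrix' Y) := by
    refine (ext_comm (L := mtLie H.D) (fun Z hZ => ?_) H.D_mem).symm
    have h2 := hY _ (H.mem_LL.2 hZ)
    apply Matrix.toLin'.injective
    rw [Matrix.toLin'_mul, Matrix.toLin'_mul, Matrix.toLin'_toMatrix']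
    exact h2
  have h2 := congrArg Matrix.toLin' (hX2 _ h1)
  rw [Matrix.toLin'_mul, Matrix.toLin'_mul, Matrix.toLin'_toMatrix'] at h2
  exact h2

end K3Hodge

end Pool.Agent.H851.KT
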