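import Mathlib
import Pool.Agent.H851.KT.Abs
import Pool.Agent.H851.KT.Defs
import Pool.Agent.H851.K3.Iso

/-!
# Operators of rank two attached to ordinary Frobenius elements
-/

set_option autoImplicit false

namespace Pool.Agent.H851.KT

open Module TensorProduct Pool.Agent.Y114.RM Pool.Agent.TH118.SG Polynomial Matrix
open Pool.Agent.H851.K3
open Pool.Agent.NH56.HY (GK IsFrobenius tw tw_apply R chi_ne)

/-- extension of additive functions -/
theorem exists_theta {F : Type} [Field F] [CharZero F] [IsAlgClosed F] {A : F → Prop} {φ : F → ℝ}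
    (h : AddOn A φ) : ∃ θ : Additive Fˣ →+ F, ∀ x, A x → ∀ c : ℚ, φ x = c → ext0 θ x = c := by
  have hB : Module.Baer ℤ F := Module.Baer.of_divisible F
  obtain ⟨π, hπ⟩ := LinearMap.exists_leftInverse_of_injective (Algebra.linearMap ℚ ℝ)
    (LinearMap.ker_eq_bot.2 (algebraMap ℚ ℝ).injective)
  have hπ' : ∀ c : ℚ, π (c : ℝ) = c := by
    intro c
    have := LinearMap.congr_fun hπ c
    simpa using this
  let H : AddSubgroup (Additive Fˣ) :=
    { carrier := {u | A ((Additive.toMul u : Fˣ) : F)}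
      zero_mem' := by
        change A ((1 : Fˣ) : F)
        rw [Units.val_one]
        exact h.one
      add_mem' := fun {a b} ha hb => by
        change A (((Additive.toMul a * Additive.toMul b : Fˣ)) : F)
        rw [Units.val_mul]
        exact h.mul _ _ ha hb
      neg_mem' := fun {a} ha => by
        change A (((Additive.toMul a)⁻¹ : Fˣ) : F)
        rw [Units.val_inv_eq_inv_val]
        exact h.inv _ ha }
  let g : H →+ F :=
    { toFun := fun u => ((π (φ ((Additive.toMul u.1 : Fˣ) : F)) : ℚ) : F)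
      map_zero' := by
        have e : φ ((Additive.toMul (0 : Additive Fˣ) : Fˣ) : F) = 0 := by
          rw [toMul_zero, Units.val_one]
          exact h.map_one
        change ((π (φ ((Additive.toMul (0 : Additive Fˣ) : Fˣ) : F)) : ℚ) : F) = 0
        rw [e, map_zero, Rat.cast_zero]
      map_add' := fun a b => by
        have e : φ ((Additive.toMul (a.1 + b.1) : Fˣ) : F) =
            φ ((Additive.toMul a.1 : Fˣ) : F) + φ ((Additive.toMul b.1 : Fˣ) : F) := by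
          rw [toMul_add, Units.val_mul]
          exact h.map _ _ a.2 b.2
        change ((π (φ ((Additive.toMul (a.1 + b.1) : Fˣ) : F)) : ℚ) : F) = _
        rw [e, map_add, Rat.cast_add] }
  let f : H →ₗ[ℤ] Additive Fˣ := H.subtype.toIntLinearMap
  have hf : Function.Injective f := H.subtype_injective
  obtain ⟨θ, hθ⟩ := Module.Baer.extension_property hB f hf g.toIntLinearMap
  refine ⟨θ.toAddMonoidHom, fun x hx c hc => ?_⟩
  have hx0 := h.ne x hx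
  rw [ext0_ne _ hx0]
  have h1 := LinearMap.congr_fun hθ ⟨Additive.ofMul (Units.mk0 x hx0), hx⟩
  have h2 : θ (Additive.ofMul (Units.mk0 x hx0)) = ((π (φ x) : ℚ) : F) := h1
  change θ (Additive.ofMul (Units.mk0 x hx0)) = _
  rw [h2, hc, hπ']

section

variable {Γ : Type} [Group Γ] {ℓ : ℕ} [Fact ℓ.Prime] {n : Type} [Fintype n] [DecidableEq n]
  (χ : Γ →* ℚ_[ℓ]) (ρ : Γ →* Matrix n n ℚ_[ℓ])

theorem rep_eq (g : Γ) : rep χ ρ g = Matrix.toLin' (tw χ ρ g) := rfl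

theorem rep_apply (g : Γ) (x : n → ℚ_[ℓ]) : rep χ ρ g x = tw χ ρ g *ᵥ x := rfl

theorem charpoly_rep (g : Γ) :
    ((rep χ ρ g).baseChange (PadicAlgCl ℓ)).charpoly = (R χ ρ g).charpoly := by
  rw [LinearMap.charpoly_baseChange, rep_eq, charpoly_lin, R_eq, Matrix.charpoly_map]

variable {χ ρ} {L : Submodule ℚ_[ℓ] (End ℚ_[ℓ] (n → ℚ_[ℓ]))}
  {b : (n → ℚ_[ℓ]) →ₗ[ℚ_[ℓ]] (n → ℚ_[ℓ]) →ₗ[ℚ_[ℓ]] ℚ_[ℓ]}

/-- **Elements orthogonal to the Lie algebra kill the eigenvectors of ordinary Frobenius elements.** -/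
theorem kill_sep (hs : ∀ x y, b x y = b y x)
    (hb : ∀ x, (∀ y, b x y = 0) → x = 0) (hLT : ∀ X, X ∈ L ↔ X ∈ LT (rep χ ρ))
    (hL : ∀ X ∈ L, Skew b X) (hLie : IsLie L) (h : IsSemisimpleModule (alg L) (n → ℚ_[ℓ])) {g : Γ}
    (hsep : ∀ β, (R χ ρ g).charpoly.IsRoot β → β ≠ 1 → Separated (R χ ρ g) β)
    {Z : End ℚ_[ℓ] (n → ℚ_[ℓ])} (hZ : Z ∈ big b L)
    (hZL : ∀ X ∈ L, LinearMap.trace ℚ_[ℓ] _ (Z * X) = 0) {γ : PadicAlgCl ℓ} (hγ : γ ≠ 1)
    {x : PadicAlgCl ℓ ⊗[ℚ_[ℓ]] (n → ℚ_[ℓ])}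
    (hx : x ∈ Module.End.maxGenEigenspace ((rep χ ρ g).baseChange (PadicAlgCl ℓ)) γ) :
    Z.baseChange (PadicAlgCl ℓ) x = 0 := by
  set T : End (PadicAlgCl ℓ) (PadicAlgCl ℓ ⊗[ℚ_[ℓ]] (n → ℚ_[ℓ])) :=
    (rep χ ρ g).baseChange (PadicAlgCl ℓ) with hT
  have hch : T.charpoly = (R χ ρ g).charpoly := charpoly_rep χ ρ g
  have hne : (R χ ρ g).charpoly ≠ 0 := (Matrix.charpoly_monic _).ne_zero
  have hbot : ∀ δ, ¬ (R χ ρ g).charpoly.IsRoot δ → ∀ y ∈ T.maxGenEigenspace δ, y = 0 := by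
    intro δ hδ y hy
    have h1 := LinearMap.finrank_maxGenEigenspace_eq T δ
    rw [hch, rootMultiplicity_eq_zero hδ] at h1
    rw [Submodule.finrank_eq_zero.1 h1] at hy
    exact (Submodule.mem_bot _).1 hy
  have hline : ∀ δ, (R χ ρ g).charpoly.rootMultiplicity δ = 1 → ∃ v ∈ T.maxGenEigenspace δ, v ≠ 0 ∧
      ∀ y ∈ T.maxGenEigenspace δ, ∃ c : PadicAlgCl ℓ, y = c • v := by
    intro δ hδ
    have h1 := LinearMap.finrank_maxGenEigenspace_eq T δ
    rw [hch, hδ] at h1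
    obtain ⟨v, hv, hv'⟩ := finrank_eq_one_iff'.1 h1
    refine ⟨v.1, v.2, fun h0 => hv (Subtype.ext h0), fun y hy => ?_⟩
    obtain ⟨c, hc⟩ := hv' ⟨y, hy⟩
    exact ⟨c, (congrArg Subtype.val hc).symm⟩
  by_cases hroot : (R χ ρ g).charpoly.IsRoot γ
  swap
  · rw [hbot γ hroot x hx, map_zero]
  have hS := hsep γ hroot hγ
  obtain ⟨A, φ, hA, hAr, hφ1, hφ0⟩ := hS.indep
  have hγ0 : γ ≠ 0 := hA.ne γ (hAr γ hroot)
  have hγi : γ⁻¹ ≠ 1 := by
    intro h'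
    apply hγ
    rw [← inv_inv γ, h', inv_one]
  have hS' := hsep γ⁻¹ hS.inv hγi
  obtain ⟨v, hvm, hv0, hv⟩ := hline γ hS.simple
  obtain ⟨v', hvm', -, hv'⟩ := hline γ⁻¹ hS'.simple
  obtain ⟨θ, hθ⟩ := exists_theta hA
  obtain ⟨Y, hY⟩ := exists_op T (fun z => ext0 θ z)
  have hYL : Y ∈ bcS (PadicAlgCl ℓ) L :=
    Pool.Agent.R913.Adj.op_mem (ρ := rep χ ρ) (PadicAlgCl ℓ) hLT g θ Y hY
  have hYs : Skew (bcB (PadicAlgCl ℓ) b) Y := bcS_skew hL Y hYL
  have t1 : ext0 θ γ = 1 := by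
    have := hθ γ (hAr γ hroot) 1 (by rw [hφ1, Rat.cast_one])
    rwa [Rat.cast_one] at this
  have t2 : ext0 θ γ⁻¹ = -1 := by
    have := hθ γ⁻¹ (hAr _ hS.inv) (-1) (by
      rw [hA.map_inv γ (hAr γ hroot), hφ1]
      norm_num)
    rw [this]
    norm_num
  obtain ⟨a, a1, a2, a3, a4⟩ := op_wdg (B := bcB (PadicAlgCl ℓ) b) (T := T) (Y := Y) (β := γ)
    (β' := γ⁻¹) (v := v) (v' := v') (bcB_symm hs) (bcB_nondeg hb)
    (Module.End.iSup_maxGenEigenspace_eq_top T) hYs hv0 hv hv'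
    (by rw [hY γ v hvm, t1, one_smul]) (by rw [hY γ⁻¹ v' hvm', t2, neg_one_smul]) (by
      intro δ h1 h2 y hy
      by_cases hδ : (R χ ρ g).charpoly.IsRoot δ
      · have := hθ δ (hAr δ hδ) 0 (by rw [hφ0 δ hδ h1 h2, Rat.cast_zero])
        rw [hY δ y hy, this, Rat.cast_zero, zero_smul]
      · rw [hbot δ hδ y hy, map_zero])
  have hk := kill_bc (C := PadicAlgCl ℓ) hs hb hL hLie h a1 a2 a3 (a4 ▸ hYL) hZ hZL
  obtain ⟨c, rfl⟩ := hv x hx
  rw [map_smul, hk, smul_zero]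

/-- an endomorphism which kills the same vectors -/
theorem unip_sep [CharZero ℚ_[ℓ]] {g : Γ} {P : End ℚ_[ℓ] (n → ℚ_[ℓ])}
    (hP : rep χ ρ g * P = P * rep χ ρ g)
    (hk : ∀ γ : PadicAlgCl ℓ, γ ≠ 1 →
      ∀ x ∈ Module.End.maxGenEigenspace ((rep χ ρ g).baseChange (PadicAlgCl ℓ)) γ,
      P.baseChange (PadicAlgCl ℓ) x = 0) :
    (rep χ ρ g - 1) ^ (Fintype.card n) * P = 0 := by
  set T : End (PadicAlgCl ℓ) (PadicAlgCl ℓ ⊗[ℚ_[ℓ]] (n → ℚ_[ℓ])) :=
    (rep χ ρ g).baseChange (PadicAlgCl ℓ) with hT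
  have hbcp : ∀ (X : End ℚ_[ℓ] (n → ℚ_[ℓ])) (m : ℕ), (X ^ m).baseChange (PadicAlgCl ℓ) =
      X.baseChange (PadicAlgCl ℓ) ^ m := by
    intro X m
    induction m with
    | zero => rw [pow_zero, pow_zero, bc_one]
    | succ m ih => rw [pow_succ, pow_succ, bc_mul, ih]
  apply bc_inj (C := PadicAlgCl ℓ)
  have e1 : ((rep χ ρ g - 1) ^ (Fintype.card n) * P).baseChange (PadicAlgCl ℓ) =
      (T - 1) ^ (Fintype.card n) * P.baseChange (PadicAlgCl ℓ) := by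
    rw [bc_mul, hbcp, LinearMap.baseChange_sub, bc_one]
  set PC : End (PadicAlgCl ℓ) (PadicAlgCl ℓ ⊗[ℚ_[ℓ]] (n → ℚ_[ℓ])) :=
    P.baseChange (PadicAlgCl ℓ) with hPC
  have hcomm : T * PC = PC * T := by
    rw [hT, hPC, ← bc_mul, hP, bc_mul]
  have hcomm' : Commute (T - 1) PC := by
    change (T - 1) * PC = PC * (T - 1)
    rw [sub_mul, mul_sub, hcomm, one_mul, mul_one]
  rw [e1, LinearMap.baseChange_zero, (hcomm'.pow_left _).eq]
  have hfr : finrank (PadicAlgCl ℓ) (PadicAlgCl ℓ ⊗[ℚ_[ℓ]] (n → ℚ_[ℓ])) = Fintype.card n := by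
    rw [Module.finrank_baseChange, Module.finrank_fintype_fun_eq_card]
  have htop : LinearMap.ker (PC * (T - 1) ^ (Fintype.card n)) = ⊤ := by
    rw [eq_top_iff, ← Module.End.iSup_maxGenEigenspace_eq_top T]
    refine iSup_le fun γ x hx => ?_
    rw [LinearMap.mem_ker]
    by_cases hγ : γ = 1
    · subst hγ
      rw [Module.End.maxGenEigenspace_eq_genEigenspace_finrank, hfr,
        Module.End.mem_genEigenspace_nat, LinearMap.mem_ker, one_smul] at hx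
      rw [Module.End.mul_apply, hx, map_zero]
    · rw [← (hcomm'.pow_left _).eq, Module.End.mul_apply, hk γ hγ x hx, map_zero]
  exact LinearMap.ker_eq_top.1 htop

end

end Pool.Agent.H851.KT
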