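import Mathlib
import Pool.Agent.H851.KT.Frob
import Pool.Agent.H851.K3.SS
import Pool.Graph.R_seed8.Y114.GF.Clifford

/-!
# Density of ordinary Frobenius elements, and unipotent parts
-/

set_option autoImplicit false

namespace Pool.Agent.H851.KT

open Module TensorProduct Pool.Agent.Y114.RM Pool.Agent.TH118.SG Polynomial Matrix Topology
open NumberField IsDedekindDomain
open Pool.Agent.H851.K3
open Pool.Agent.NH56.HY (GK IsFrobenius tw tw_apply R chi_ne Near NonUnip t_ORD t_NR1 t_DG1 small_pos)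

section

variable {K : Type} [Field K] [NumberField K] {ℓ : ℕ} [hℓ : Fact ℓ.Prime] {n : Type}
    [Fintype n] [DecidableEq n] {q : Matrix n n ℚ_[ℓ]} {S : Finset ℕ} {χ : GK K →* ℚ_[ℓ]}
    {Pol : HeightOneSpectrum (𝓞 K) → ℤ[X]} {ρ : GK K →* Matrix n n ℚ_[ℓ]}

theorem near_open (hρ : Continuous ρ) (hχ : Continuous χ) :
    ∃ U : Subgroup (GK K), IsOpen (U : Set (GK K)) ∧ (U : Set (GK K)) ⊆ Near χ ρ := by
  have hr := small_pos ℓ
  have hVo : IsOpen ((⋂ i, ⋂ j, {g : GK K | ‖(ρ g - 1) i j‖ < ((ℓ : ℝ) ^ 2)⁻¹}) ∩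
      {g : GK K | ‖χ g - 1‖ < ((ℓ : ℝ) ^ 2)⁻¹}) := by
    refine IsOpen.inter ?_ ?_
    · refine isOpen_iInter_of_finite fun i => isOpen_iInter_of_finite fun j => ?_
      refine isOpen_lt ?_ continuous_const
      exact (((hρ.sub continuous_const).matrix_elem i j)).norm
    · exact isOpen_lt ((hχ.sub continuous_const).norm) continuous_const
  obtain ⟨W, hW⟩ := ProfiniteGrp.exist_openNormalSubgroup_sub_open_nhds_of_one (G := GK K) hVo
    (by
      refine ⟨?_, ?_⟩
      · simp only [Set.mem_iInter, Set.mem_ofPred_eq]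
        intro i j
        rw [map_one, sub_self, Matrix.zero_apply, norm_zero]
        exact hr
      · simp only [Set.mem_ofPred_eq]
        rw [map_one, sub_self, norm_zero]
        exact hr)
  refine ⟨W.toSubgroup, W.isOpen', fun g hg => ?_⟩
  obtain ⟨h1, h2⟩ := hW hg
  simp only [Set.mem_iInter, Set.mem_ofPred_eq] at h1 h2
  exact ⟨fun i j => (h1 i j).le, h2.le⟩

omit [NumberField K] in
theorem tw_continuous (hρ : Continuous ρ) (hχ : Continuous χ) : Continuous fun g => tw χ ρ g := by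
  have h1 : Continuous fun g => (χ g)⁻¹ := hχ.inv₀ fun g => chi_ne χ g
  exact h1.smul hρ

/-- a property of the Frobenius elements with separated eigenvalues -/
theorem unip_open (h : IsK3Type q S χ Pol ρ) (U₀ : Subgroup (GK K))
    (hU₀ : IsOpen (U₀ : Set (GK K))) (P : Matrix n n ℚ_[ℓ])
    (hP : ∀ g ∈ U₀, (∀ β, (R χ ρ g).charpoly.IsRoot β → β ≠ 1 → Separated (R χ ρ g) β) →
      (tw χ ρ g - 1) ^ (Fintype.card n) * P = 0) :
    ∃ U : Subgroup (GK K), IsOpen (U : Set (GK K)) ∧ U ≤ U₀ ∧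
      ∀ g ∈ U, (tw χ ρ g - 1) ^ (Fintype.card n) * P = 0 := by
  have hc := h.card
  by_cases hNU : NonUnip χ ρ
  · obtain ⟨U, hUo, hUN⟩ := near_open h.continuous.1 h.continuous.2
    refine ⟨U ⊓ U₀, hUo.inter hU₀, inf_le_right, ?_⟩
    by_contra hcon
    push Not at hcon
    obtain ⟨g₀, hg₀, hnil⟩ := hcon
    have hVo : IsOpen (((U ⊓ U₀ : Subgroup (GK K)) : Set (GK K)) ∩
        {g | (tw χ ρ g - 1) ^ Fintype.card n * P ≠ 0}) := by
      refine (hUo.inter hU₀).inter ?_
      have h2 : Continuous fun g => (tw χ ρ g - 1) ^ Fintype.card n * P :=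
        (((tw_continuous h.continuous.1 h.continuous.2).sub continuous_const).pow _).matrix_mul
          continuous_const
      exact (isClosed_singleton (x := (0 : Matrix n n ℚ_[ℓ]))).isOpen_compl.preimage h2
    obtain ⟨p, hp, hpS, v, hv, ⟨σ, hσ, hσV⟩, hord⟩ := t_ORD t_NR1 t_DG1 K ℓ n S χ ρ Pol
      h.continuous.2 h.continuous.1 (by omega)
      (fun p hp hpS v hv => by
        have : Fact p.Prime := ⟨hp⟩
        exact ⟨(h.weil p hpS v hv).1, (h.weil p hpS v hv).2, h.frobenius p hpS v hv⟩)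
      hNU _ hVo ⟨g₀, hg₀, hnil⟩ (fun g hg => hUN hg.1.1)
    have : Fact p.Prime := ⟨hp⟩
    exact hσV.2 (hP _ hσV.1.2 fun β hβ hβ1 => fro h hpS hv hσ hord (hUN hσV.1.1) β hβ hβ1)
  · unfold NonUnip at hNU
    push Not at hNU
    obtain ⟨W, hWo, hW⟩ := hNU
    refine ⟨W ⊓ U₀, hWo.inter hU₀, inf_le_right, fun g hg => ?_⟩
    obtain ⟨k, hk⟩ := hW g hg.1
    have e1 : tw χ ρ g - 1 = (χ g)⁻¹ • (ρ g - χ g • (1 : Matrix n n ℚ_[ℓ])) := by
      rw [tw_apply, smul_sub, smul_smul, inv_mul_cancel₀ (chi_ne χ g), one_smul]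
    have e2 : (tw χ ρ g - 1) ^ k = 0 := by rw [e1, _root_.smul_pow, hk, smul_zero]
    have e3 : (tw χ ρ g - 1) ^ (Fintype.card n) = 0 := by
      apply Matrix.toLin'.injective
      rw [Matrix.toLin'_pow, map_zero]
      have h1 := Module.End.ker_pow_le_ker_pow_finrank (Matrix.toLin' (tw χ ρ g - 1)) k
      rw [← Matrix.toLin'_pow, e2, map_zero, LinearMap.ker_zero, Module.finrank_fintype_fun_eq_card,
        top_le_iff] at h1
      exact LinearMap.ker_eq_top.1 h1
    rw [e3, Matrix.zero_mul]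

end

/-- **Kolchin's theorem** -/
theorem kolchin {k V G : Type} [Field k] [AddCommGroup V] [Module k V] [FiniteDimensional k V]
    [Group G] (r : G →* End k V) (W : Submodule k V) (hW : ∀ g, ∀ x ∈ W, r g x ∈ W) (hne : W ≠ ⊥)
    (N : ℕ) (hnil : ∀ g, ∀ x ∈ W, ((r g - 1) ^ N) x = 0) :
    ∃ x ∈ W, x ≠ 0 ∧ ∀ g, r g x = x := by
  let b := Module.finBasis k W
  let res : G →* End k W :=
    { toFun := fun g => (r g).restrict (hW g)
      map_one' := by
        ext x
        change r 1 x.1 = x.1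
        rw [map_one, Module.End.one_apply]
      map_mul' := fun g g' => by
        ext x
        change r (g * g') x.1 = r g (r g' x.1)
        rw [map_mul, Module.End.mul_apply] }
  have hres : ∀ g (x : W), ((res g x : W) : V) = r g x := fun g x => rfl
  let θ : G →* Matrix (Fin (finrank k W)) (Fin (finrank k W)) k :=
    ((LinearMap.toMatrixAlgEquiv b).toAlgHom.toMonoidHom).comp res
  have hθ : ∀ g, θ g = LinearMap.toMatrixAlgEquiv b (res g) := fun g => rfl
  have hpow : ∀ g (m : ℕ) (x : W), ((((res g - 1) ^ m) x : W) : V) = ((r g - 1) ^ m) x := by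
    intro g m
    induction m with
    | zero => intro x; rfl
    | succ m ih =>
      intro x
      rw [pow_succ, Module.End.mul_apply, ih, pow_succ, Module.End.mul_apply]
      rfl
  have hm : 0 < finrank k W := Submodule.one_le_finrank_iff.2 hne
  obtain ⟨v, hv, hfix⟩ := fixed_vec hm θ (fun g => by
    refine ⟨N, ?_⟩
    rw [hθ, ← map_one (LinearMap.toMatrixAlgEquiv b), ← map_sub, ← map_pow]
    have h1 : (res g - 1) ^ N = 0 := by
      refine LinearMap.ext fun x => Subtype.ext ?_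
      rw [hpow, hnil g x.1 x.2]
      rfl
    rw [h1, map_zero])
  refine ⟨b.equivFun.symm v, (b.equivFun.symm v).2, ?_, fun g => ?_⟩
  · intro h0
    apply hv
    have h1 : b.equivFun.symm v = 0 := Subtype.ext h0
    rwa [LinearEquiv.map_eq_zero_iff] at h1
  · rw [← hres]
    congr 1
    apply b.equivFun.injective
    rw [LinearEquiv.apply_symm_apply]
    have h1 := hfix g
    rw [hθ] at h1
    have h2 := LinearMap.toMatrix_mulVec_repr b b (res g) (b.equivFun.symm v)
    have h3 : (b.repr (b.equivFun.symm v) : Fin (finrank k W) → k) = v := by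
      have := b.equivFun.apply_symm_apply v
      exact this
    have h4 : LinearMap.toMatrix b b (res g) = LinearMap.toMatrixAlgEquiv b (res g) := rfl
    rw [h3, h4, h1] at h2
    exact h2.symm

/-- a group which acts unipotently and semisimply on a direct summand acts trivially -/
theorem fixes {k V Γ : Type} [Field k] [AddCommGroup V] [Module k V] [FiniteDimensional k V]
    [Group Γ] {r : Representation k Γ V} (hss : Pool.Agent.H204R3.GP.FiniteIndexSemisimple r)
    (U : Subgroup Γ) (hU : U.FiniteIndex) (P : End k V) (hPP : P * P = P)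
    (hPc : ∀ g ∈ U, r g * P = P * r g) (N : ℕ) (hun : ∀ g ∈ U, (r g - 1) ^ N * P = 0) :
    ∀ g ∈ U, r g * P = P := by
  let Fix : Submodule k V :=
    { carrier := {x | P x = x ∧ ∀ g ∈ U, r g x = x}
      zero_mem' := ⟨map_zero P, fun g _ => map_zero _⟩
      add_mem' := fun {a b} ha hb => ⟨by rw [map_add, ha.1, hb.1], fun g hg => by
        rw [map_add, ha.2 g hg, hb.2 g hg]⟩
      smul_mem' := fun c a ha => ⟨by rw [map_smul, ha.1], fun g hg => by
        rw [map_smul, ha.2 g hg]⟩ }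
  obtain ⟨Q, hQ1, hQ2, hQ3⟩ := Pool.Agent.R913.Adj.hasProj hss U hU Fix (by
    intro s hs u hu
    have : r s u = u := hu.2 s hs
    rw [this]
    exact hu)
  let V3 : Submodule k V :=
    { carrier := {x | P x = x ∧ Q x = 0}
      zero_mem' := ⟨map_zero P, map_zero Q⟩
      add_mem' := fun {a b} ha hb => ⟨by rw [map_add, ha.1, hb.1], by
        rw [map_add, ha.2, hb.2, add_zero]⟩
      smul_mem' := fun c a ha => ⟨by rw [map_smul, ha.1], by rw [map_smul, ha.2, smul_zero]⟩ }
  have hV3 : V3 = ⊥ := by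
    by_contra hne
    have hst : ∀ g : U, ∀ x ∈ V3, (r.comp U.subtype) g x ∈ V3 := by
      intro g x hx
      change P (r g x) = r g x ∧ Q (r g x) = 0
      refine ⟨?_, ?_⟩
      · rw [← Module.End.mul_apply, ← hPc g g.2, Module.End.mul_apply, hx.1]
      · rw [hQ3 g g.2, hx.2, map_zero]
    obtain ⟨x, hx, hx0, hfix⟩ := kolchin (r.comp U.subtype) V3 hst hne N (by
      intro g x hx
      have h1 := LinearMap.congr_fun (hun g g.2) x
      rw [Module.End.mul_apply, hx.1] at h1
      exact h1)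
    have h1 : x ∈ Fix := ⟨hx.1, fun g hg => hfix ⟨g, hg⟩⟩
    have h2 := hQ2 x h1
    rw [hx.2] at h2
    exact hx0 h2.symm
  intro g hg
  refine LinearMap.ext fun y => ?_
  have h1 : P y - Q (P y) ∈ V3 := by
    refine ⟨?_, ?_⟩
    · rw [map_sub, (hQ1 (P y)).1, ← Module.End.mul_apply, hPP]
    · rw [map_sub, hQ2 _ (hQ1 (P y)), sub_self]
  rw [hV3, Submodule.mem_bot, sub_eq_zero] at h1
  rw [Module.End.mul_apply, h1]
  exact (hQ1 (P y)).2 g hg

end Pool.Agent.H851.KT
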