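import Mathlib
import Pool.Agent.H851.KT.Dens

/-!
# The Lie algebra of the Tate tensors of a representation of K3 type
-/

set_option autoImplicit false

namespace Pool.Agent.H851.KT

open Module TensorProduct Pool.Agent.Y114.RM Pool.Agent.TH118.SG Polynomial Matrix Topology
open NumberField IsDedekindDomain
open Pool.Agent.H851.K3
open Pool.Agent.NH56.HY (GK IsFrobenius tw tw_apply R chi_ne)
open Pool.Agent.H204R3.GP (FiniteIndexSemisimple)

section

variable {K : Type} [Field K] [NumberField K] {ℓ : ℕ} [hℓ : Fact ℓ.Prime] {n : Type}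
    [Fintype n] [DecidableEq n] {q : Matrix n n ℚ_[ℓ]} {S : Finset ℕ} {χ : GK K →* ℚ_[ℓ]}
    {Pol : HeightOneSpectrum (𝓞 K) → ℤ[X]} {ρ : GK K →* Matrix n n ℚ_[ℓ]}

omit [NumberField K] in
theorem finiteIndexSemisimple (hss : Semisimple ρ) : FiniteIndexSemisimple (rep χ ρ) := by
  have key : ∀ W : Submodule ℚ_[ℓ] (n → ℚ_[ℓ]), Stable ρ W ↔
      ∀ g ∈ (⊤ : Subgroup (GK K)), ∀ x ∈ W, rep χ ρ g x ∈ W := by
    intro W
    constructor
    · intro hW g _ x hx
      rw [rep_apply, tw_apply, Matrix.smul_mulVec]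
      exact W.smul_mem _ (hW g x hx)
    · intro hW g x hx
      have h1 := W.smul_mem (χ g) (hW g trivial x hx)
      rwa [rep_apply, tw_apply, Matrix.smul_mulVec, smul_smul, mul_inv_cancel₀ (chi_ne χ g),
        one_smul] at h1
  have h1 : Pool.Agent.Y114.GF.Semi (rep χ ρ) (⊤ : Subgroup (GK K)) := by
    intro W hW
    obtain ⟨W', h2, h3⟩ := hss W ((key W).2 hW)
    exact ⟨W', (key W').1 h2, h3⟩
  intro Δ hΔ W hW
  exact Pool.Agent.Y114.GF.semi_finiteIndex (rep χ ρ) h1 Δ W hW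

theorem form_rep (h : IsK3Type q S χ Pol ρ) (g : GK K) (x y : n → ℚ_[ℓ]) :
    form q (rep χ ρ g x) (rep χ ρ g y) = form q x y := by
  have h1 := h.similitude g
  have h2 : (tw χ ρ g)ᵀ * q * tw χ ρ g = q := by
    rw [tw_apply, Matrix.transpose_smul, Matrix.smul_mul, Matrix.smul_mul, Matrix.mul_smul, h1,
      smul_smul, smul_smul]
    have := chi_ne χ g
    rw [show (χ g)⁻¹ * (χ g)⁻¹ * χ g ^ 2 = 1 by field_simp, one_smul]
  rw [form_apply, form_apply, rep_apply, rep_apply, Matrix.dotProduct_mulVec, Matrix.dotProduct_mulVec,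
    ← Matrix.vecMul_transpose, Matrix.vecMul_vecMul, Matrix.vecMul_vecMul, ← Matrix.mul_assoc, h2,
    ← Matrix.dotProduct_mulVec]

theorem form_rep' (h : IsK3Type q S χ Pol ρ) (g : GK K) (x y : n → ℚ_[ℓ]) :
    form q (rep χ ρ g x) y = form q x (rep χ ρ g⁻¹ y) := by
  rw [← form_rep h g x (rep χ ρ g⁻¹ y), ← Module.End.mul_apply (rep χ ρ g), ← map_mul,
    mul_inv_cancel, map_one, Module.End.one_apply]

/-- endomorphisms which kill the Tate tensors are skew -/
theorem skew_of_tate (h : IsK3Type q S χ Pol ρ) {X : End ℚ_[ℓ] (n → ℚ_[ℓ])}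
    (hX : ∀ (m : ℕ) (φ : Tensor ℚ_[ℓ] (n → ℚ_[ℓ]) m), TateTensor (rep χ ρ) φ → KillsTensor X φ) :
    Skew (form q) X := by
  let ω : ((n → ℚ_[ℓ]) × Dual ℚ_[ℓ] (n → ℚ_[ℓ])) →ₗ[ℚ_[ℓ]]
      ((n → ℚ_[ℓ]) × Dual ℚ_[ℓ] (n → ℚ_[ℓ])) →ₗ[ℚ_[ℓ]] ℚ_[ℓ] :=
    (form q).compl₁₂ (LinearMap.fst _ _ _) (LinearMap.fst _ _ _)
  let φ : Tensor ℚ_[ℓ] (n → ℚ_[ℓ]) 2 := Pool.Agent.H204R3.SP.bil2 ω
  have hφ : ∀ v, φ v = form q (v 0).1 (v 1).1 := fun v => rfl
  have hT : TateTensor (rep χ ρ) φ := by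
    refine ⟨⊤, inferInstance, fun g _ v => ?_⟩
    rw [hφ, hφ]
    exact form_rep h g _ _
  have h1 := hX 2 φ hT
  intro x y
  have h2 := h1 ![(x, 0), (y, 0)]
  rw [Fin.sum_univ_two, hφ, hφ, Function.update_self, Function.update_self,
    Function.update_of_ne Fin.zero_ne_one.symm, Function.update_of_ne Fin.zero_ne_one] at h2
  change form q (X x) y + form q x (X y) = 0 at h2
  linear_combination h2

/-- **Theorem.** The Lie algebra of the Tate tensors. -/
theorem lie_main (h : IsK3Type q S χ Pol ρ) (hss : Semisimple ρ) :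
    ∃ L : Submodule ℚ_[ℓ] (End ℚ_[ℓ] (n → ℚ_[ℓ])), (∀ X, X ∈ L ↔ X ∈ LT (rep χ ρ)) ∧
      L = big (form q) L ∧
      ∀ Y : End ℚ_[ℓ] (n → ℚ_[ℓ]), (∀ X ∈ L, X * Y = Y * X) → IsTateEnd ρ (LinearMap.toMatrix' Y) := by
  have hfss : FiniteIndexSemisimple (rep χ ρ) := finiteIndexSemisimple hss
  have hs := form_symm h.symm
  have hb := form_nondeg h.symm h.nondeg
  have hcomp : CompactSpace (GK K) := inferInstance
  obtain ⟨L, hLT, hLie, hAd, -⟩ := Pool.Agent.Y41.RM.lieL' ℚ_[ℓ] (n → ℚ_[ℓ]) (GK K) (rep χ ρ)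
  have hskew : ∀ X ∈ L, Skew (form q) X := fun X hX => skew_of_tate h ((hLT X).1 hX).2
  -- semisimplicity over the Lie algebra
  have hproj : ∀ W : Submodule ℚ_[ℓ] (n → ℚ_[ℓ]), (∀ γ, ∀ x ∈ W, rep χ ρ γ x ∈ W) →
      ∃ P : End ℚ_[ℓ] (n → ℚ_[ℓ]), (∀ X ∈ L, X * P = P * X) ∧ (∀ x, P x ∈ W) ∧
        ∀ x ∈ W, P x = x := by
    intro W hW
    obtain ⟨P, hP1, hP2, hP3⟩ := Pool.Agent.R913.Adj.hasProj hfss ⊤ inferInstance W
      (fun s _ u hu => hW s u hu)
    refine ⟨P, fun X hX => ?_, hP1, hP2⟩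
    exact Pool.Agent.R913.Adj.tate_comm (rep χ ρ) ((hLT X).1 hX).2 (Δ := ⊤) inferInstance
      fun s hs => LinearMap.ext fun v => hP3 s hs v
  have hsemi : IsSemisimpleModule (alg L) (n → ℚ_[ℓ]) := alg_semisimple (rep χ ρ) hAd hproj
  -- the commutant
  have hcomm : ∀ Y : End ℚ_[ℓ] (n → ℚ_[ℓ]), (∀ X ∈ L, X * Y = Y * X) →
      ∃ U : Subgroup (GK K), IsOpen (U : Set (GK K)) ∧ ∀ g ∈ U, rep χ ρ g * Y = Y * rep χ ρ g := by
    have hc := tw_continuous h.continuous.1 h.continuous.2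
    obtain ⟨Δ, hΔ, hΔc⟩ := Pool.Agent.Y220.RM.tfr_abs (ℓ := ℓ) (V := n → ℚ_[ℓ]) (rep χ ρ)
      (by
        intro X x
        have h1 : Continuous fun γ : GK K => tw χ ρ γ *ᵥ (X (tw χ ρ γ⁻¹ *ᵥ x)) := by
          refine hc.matrix_mulVec ?_
          exact (LinearMap.continuous_of_finiteDimensional X).comp
            ((hc.comp continuous_inv).matrix_mulVec continuous_const)
        exact h1)
      (Pool.Agent.R913.Adj.comm L) (Pool.Agent.R913.Adj.comm_conj hAd)
      (Pool.Agent.R913.Adj.comm_order hLT)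
    intro Y hY
    let U : Subgroup (GK K) :=
      { carrier := {g | rep χ ρ g * Y = Y * rep χ ρ g}
        one_mem' := by
          change rep χ ρ 1 * Y = Y * rep χ ρ 1
          rw [map_one, one_mul, mul_one]
        mul_mem' := fun {a b} ha hb => by
          change rep χ ρ (a * b) * Y = Y * rep χ ρ (a * b)
          rw [map_mul, mul_assoc, hb, ← mul_assoc, ha, mul_assoc]
        inv_mem' := fun {a} ha => by
          change rep χ ρ a⁻¹ * Y = Y * rep χ ρ a⁻¹
          have e1 : rep χ ρ a⁻¹ * rep χ ρ a = 1 := by rw [← map_mul, inv_mul_cancel, map_one]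
          have e2 : rep χ ρ a * rep χ ρ a⁻¹ = 1 := by rw [← map_mul, mul_inv_cancel, map_one]
          have e3 : rep χ ρ a * Y = Y * rep χ ρ a := ha
          calc rep χ ρ a⁻¹ * Y = rep χ ρ a⁻¹ * (Y * (rep χ ρ a * rep χ ρ a⁻¹)) := by
                rw [e2, mul_one]
            _ = rep χ ρ a⁻¹ * (Y * rep χ ρ a) * rep χ ρ a⁻¹ := by simp only [mul_assoc]
            _ = rep χ ρ a⁻¹ * (rep χ ρ a * Y) * rep χ ρ a⁻¹ := by rw [e3]
            _ = Y * rep χ ρ a⁻¹ := by rw [← mul_assoc (rep χ ρ a⁻¹), e1, one_mul] }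
    have hUc : IsClosed (U : Set (GK K)) := by
      have h1 : (U : Set (GK K)) = {g | tw χ ρ g * LinearMap.toMatrix' Y =
          LinearMap.toMatrix' Y * tw χ ρ g} := by
        ext g
        change rep χ ρ g * Y = Y * rep χ ρ g ↔ _
        rw [Set.mem_ofPred_eq, ← (Matrix.toLin' (R := ℚ_[ℓ])).injective.eq_iff, Matrix.toLin'_mul,
          Matrix.toLin'_mul, Matrix.toLin'_toMatrix']
        exact Iff.rfl
      rw [h1]
      exact isClosed_eq (hc.matrix_mul continuous_const) (continuous_const.matrix_mul hc)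
    have hle : Δ ≤ U := fun g hg => hΔc g hg Y hY
    have hUf : U.FiniteIndex := Subgroup.finiteIndex_of_le hle
    exact ⟨U, Subgroup.isOpen_of_isClosed_of_finiteIndex U hUc, fun g hg => hg⟩
  refine ⟨L, hLT, ?_, ?_⟩
  swap
  · intro Y hY
    obtain ⟨U, hU, hUY⟩ := hcomm Y hY
    refine ⟨U, hU, fun g hg => ?_⟩
    have h1 : tw χ ρ g * LinearMap.toMatrix' Y = LinearMap.toMatrix' Y * tw χ ρ g := by
      rw [← (Matrix.toLin' (R := ℚ_[ℓ])).injective.eq_iff, Matrix.toLin'_mul,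
          Matrix.toLin'_mul, Matrix.toLin'_toMatrix']
      exact hUY g hg
    rw [tw_apply, Matrix.smul_mul, Matrix.mul_smul] at h1
    have h2 := congrArg (fun M => χ g • M) h1
    simp only [smul_smul, mul_inv_cancel₀ (chi_ne χ g), one_smul] at h2
    exact h2.symm
  refine eq_big hb hLie hskew hsemi ?_
  intro P hPP hPL hPker a ha
  obtain ⟨U₀, hU₀, hU₀c⟩ := hcomm P hPL
  -- ordinary Frobenius elements are unipotent on the image of `P`
  obtain ⟨U, hU, hUU₀, hUn⟩ := unip_open h U₀ hU₀ (LinearMap.toMatrix' P) (by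
    intro g hg hsep
    have h1 : (rep χ ρ g - 1) ^ (Fintype.card n) * P = 0 := by
      refine unip_sep (hU₀c g hg) ?_
      intro γ hγ x hx
      refine eq_zero_of_pv _ fun π => ?_
      rw [Pool.Agent.Y114.RM.pv_bc]
      refine hPker _ fun Z hZ hZt => ?_
      rw [← Pool.Agent.Y114.RM.pv_bc, kill_sep hs hb hLT hskew hLie hsemi hsep hZ hZt hγ hx,
        map_zero]
    apply Matrix.toLin'.injective
    rw [Matrix.toLin'_mul, Matrix.toLin'_pow, map_sub, Matrix.toLin'_one, Matrix.toLin'_toMatrix',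
      map_zero]
    exact h1)
  have hfin : Finite (GK K ⧸ U) := Subgroup.quotient_finite_of_isOpen _ hU
  have hUf : U.FiniteIndex := Subgroup.finiteIndex_of_finite_quotient
  have hfix := fixes hfss U hUf P hPP (fun g hg => hU₀c g (hUU₀ hg)) (Fintype.card n) (by
    intro g hg
    have h1 := congrArg Matrix.toLin' (hUn g hg)
    rw [Matrix.toLin'_mul, Matrix.toLin'_pow, map_sub, Matrix.toLin'_one, Matrix.toLin'_toMatrix',
      map_zero] at h1
    exact h1)
  have hfa : ∀ g ∈ U, rep χ ρ g a = a := by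
    intro g hg
    have := LinearMap.congr_fun (hfix g hg) a
    rwa [Module.End.mul_apply, ha] at this
  intro X hX
  refine Pool.Agent.R913.Adj.tate_comm (rep χ ρ) ((hLT X).1 hX).2 (Δ := U) hUf fun s hs => ?_
  refine LinearMap.ext fun x => ?_
  rw [Module.End.mul_apply, Module.End.mul_apply, LinearMap.smulRight_apply,
    LinearMap.smulRight_apply, map_smul, hfa s hs]
  congr 1
  have h1 := form_rep' h s⁻¹ a x
  rw [inv_inv, hfa _ (U.inv_mem hs)] at h1
  exact h1.symm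

end

end Pool.Agent.H851.KT
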