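import Mathlib
import Pool.Agent.H851.KT.Lie
import Pool.Agent.H851.KT.Hodge
import Pool.Agent.H851.K3.Rat

/-!
# The Mumford-Tate conjecture and endomorphisms, for motives of K3 type
-/

set_option autoImplicit false

namespace Pool.Agent.H851.KT

open Module Pool.Agent.Y114.RM Matrix Polynomial NumberField IsDedekindDomain
open Pool.Agent.H851.K3
open Pool.Agent.NH56.HY (GK mtLie tw tw_apply chi_ne)

section

variable {K : Type} [Field K] [NumberField K] {ℓ : ℕ} [hℓ : Fact ℓ.Prime] {n : Type}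
    [Fintype n] [DecidableEq n] {q : Matrix n n ℚ_[ℓ]} {S : Finset ℕ} {χ : GK K →* ℚ_[ℓ]}
    {Pol : HeightOneSpectrum (𝓞 K) → ℤ[X]} {ρ : GK K →* Matrix n n ℚ_[ℓ]}

/-- elements of the Lie algebra commute with the Tate endomorphisms -/
theorem tateLie_comm {X Y : Matrix n n ℚ_[ℓ]} (hX : X ∈ tateLie χ ρ) (hY : IsTateEnd ρ Y) :
    X * Y = Y * X := by
  obtain ⟨U, hU, hUY⟩ := hY
  have hfin : Finite (GK K ⧸ U) := Subgroup.quotient_finite_of_isOpen _ hU
  have hUf : U.FiniteIndex := Subgroup.finiteIndex_of_finite_quotient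
  have h1 := Pool.Agent.R913.Adj.tate_comm (rep χ ρ) (X := Matrix.toLin' X) hX
    (P := Matrix.toLin' Y) hUf (fun s hs => by
      rw [rep_eq]
      change Matrix.toLin' Y * Matrix.toLin' (tw χ ρ s) = Matrix.toLin' (tw χ ρ s) * Matrix.toLin' Y
      have h2 : Y * tw χ ρ s = tw χ ρ s * Y := by
        rw [tw_apply, Matrix.mul_smul, Matrix.smul_mul, hUY s hs]
      have h3 := congrArg Matrix.toLin' h2
      rwa [Matrix.toLin'_mul, Matrix.toLin'_mul] at h3)
  apply Matrix.toLin'.injective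
  rw [Matrix.toLin'_mul, Matrix.toLin'_mul]
  exact h1

/-- **Theorem.** The Lie algebra of the Tate tensors consists of the skew matrices which commute with all
Tate endomorphisms. -/
theorem tate_main (h : IsK3Type q S χ Pol ρ) (hss : Semisimple ρ) (X : Matrix n n ℚ_[ℓ]) :
    X ∈ tateLie χ ρ ↔ Xᵀ * q + q * X = 0 ∧ ∀ Y, IsTateEnd ρ Y → X * Y = Y * X := by
  constructor
  · intro hX
    exact ⟨skew_iff.1 (skew_of_tate h hX), fun Y hY => tateLie_comm hX hY⟩
  rintro ⟨h1, h2⟩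
  obtain ⟨L, hLT, hbig, hc⟩ := lie_main h hss
  have h3 : Matrix.toLin' X ∈ L := by
    rw [hbig]
    refine ⟨skew_iff.2 h1, fun Y hY => ?_⟩
    have h4 := congrArg Matrix.toLin' (h2 _ (hc Y hY))
    rw [Matrix.toLin'_mul, Matrix.toLin'_mul, Matrix.toLin'_toMatrix'] at h4
    exact h4
  exact ((hLT _).1 h3).2

end

section

variable {n : Type} [Fintype n] [DecidableEq n] {H : K3Hodge n}

theorem mem_ext_endo {k : Type} [Field k] [Algebra ℚ k] {𝔪 : Submodule ℚ (Matrix n n ℚ)}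
    {Y : Matrix n n k} : Y ∈ ext k (endo 𝔪) ↔
      ∀ X ∈ 𝔪, X.map (algebraMap ℚ k) * Y = Y * X.map (algebraMap ℚ k) := by
  constructor
  · intro hY X hX
    exact (ext_comm (L := endo 𝔪) (Y := X) (fun Z hZ => (hZ X hX).symm) hY).symm
  · intro h
    refine mem_ext_of_map fun π X hX => ?_
    rw [← map_mul_left, ← map_mul_right, h X hX]

theorem skew_map {k : Type} [Field k] [Algebra ℚ k] {q X : Matrix n n ℚ} (h : Xᵀ * q + q * X = 0) :
    (X.map (algebraMap ℚ k))ᵀ * q.map (algebraMap ℚ k) +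
      q.map (algebraMap ℚ k) * X.map (algebraMap ℚ k) = 0 := by
  rw [← Matrix.transpose_map, ← map_mul', ← map_mul', ← map_add', h,
    Matrix.map_zero _ (map_zero _)]

variable {K : Type} [Field K] {ℓ : ℕ} [hℓ : Fact ℓ.Prime] {S : Finset ℕ} {χ : GK K →* ℚ_[ℓ]}
    {ρ : GK K →* Matrix n n ℚ_[ℓ]} {𝔪 : Submodule ℚ (Matrix n n ℚ)}

theorem hodge_part (hm : IsMotivicLie H χ ρ 𝔪) :
    mtLie H.D = 𝔪 ↔ ∀ Y, H.IsHodgeEnd Y → Y ∈ endo 𝔪 := by
  constructor
  · intro h Y hY X hX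
    rw [← h] at hX
    exact H.mt_cent hY hX
  · intro h
    have h3 : mtLie H.D ≤ 𝔪 := sInf_le ⟨hm.bracket, hm.hodge⟩
    apply le_antisymm h3
    intro X hX
    rw [H.mt_main]
    exact ⟨hm.skew X hX, fun Y hY => h Y hY X hX⟩

theorem tate_part [NumberField K] {Pol : HeightOneSpectrum (𝓞 K) → ℤ[X]}
    (h : IsK3Type (H.q.map (algebraMap ℚ ℚ_[ℓ])) S χ Pol ρ)
    (hm : IsMotivicLie H χ ρ 𝔪) (hss : Semisimple ρ) :
    tateLie χ ρ = ext ℚ_[ℓ] 𝔪 ↔ ∀ Y, IsTateEnd ρ Y → Y ∈ ext ℚ_[ℓ] (endo 𝔪) := by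
  constructor
  · intro he Y hY
    rw [mem_ext_endo]
    intro X hX
    refine tateLie_comm ?_ hY (χ := χ)
    rw [he]
    exact mem_ext hX
  · intro he
    apply le_antisymm hm.tate
    refine ext_le fun X hX => ?_
    rw [tate_main h hss]
    exact ⟨skew_map (hm.skew X hX), fun Y hY => mem_ext_endo.1 (he Y hY) X hX⟩

end

section

variable {n : Type} [Fintype n] [DecidableEq n] {H : K3Hodge n} {ℓ : ℕ} [hℓ : Fact ℓ.Prime]
    {S : Finset ℕ} {χ : GK ℚ →* ℚ_[ℓ]} {Pol : HeightOneSpectrum (𝓞 ℚ) → ℤ[X]}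
    {ρ : GK ℚ →* Matrix n n ℚ_[ℓ]} {𝔪 : Submodule ℚ (Matrix n n ℚ)}

/-- a criterion for the span of rational vectors -/
theorem mem_span_of_map {k : Type} [Field k] [Algebra ℚ k] {N : Submodule ℚ (n → ℚ)} {x : n → k}
    (h : ∀ π : k →ₗ[ℚ] ℚ, (fun i => π (x i)) ∈ N) :
    x ∈ Submodule.span k ((fun y : n → ℚ => fun i => algebraMap ℚ k (y i)) '' N) := by
  classical
  let u := Basis.ofVectorSpace ℚ k
  let T := Finset.univ.biUnion fun i : n => (u.repr (x i)).support
  have hM : x = ∑ t ∈ T, u t • (fun i => algebraMap ℚ k (u.coord t (x i))) := by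
    funext i
    rw [Finset.sum_apply]
    have h1 : x i = ∑ t ∈ T, (u.repr (x i)) t • u t := by
      conv_lhs => rw [← u.linearCombination_repr (x i), Finsupp.linearCombination_apply]
      refine Finsupp.sum_of_support_subset _ ?_ _ (fun t _ => zero_smul _ _)
      exact Finset.subset_biUnion_of_mem (fun i : n => (u.repr (x i)).support) (Finset.mem_univ i)
    conv_lhs => rw [h1]
    refine Finset.sum_congr rfl fun t _ => ?_
    rw [Pi.smul_apply, Basis.coord_apply, Algebra.smul_def, smul_eq_mul, mul_comm]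
  rw [hM]
  exact Submodule.sum_mem _ fun t _ => Submodule.smul_mem _ _ (Submodule.subset_span ⟨_, h _, rfl⟩)

/-- over `ℚ` the representation is semisimple if the Tate endomorphisms are motivated -/
theorem semisimple_of_end (h : IsK3Type (H.q.map (algebraMap ℚ ℚ_[ℓ])) S χ Pol ρ)
    (hm : IsMotivicLie H χ ρ 𝔪) (he : ∀ Y, IsTateEnd ρ Y → Y ∈ ext ℚ_[ℓ] (endo 𝔪)) :
    Semisimple ρ := by
  set qℓ := H.q.map (algebraMap ℚ ℚ_[ℓ]) with hqℓ
  rw [semisimple_iff h]
  intro x hx hxy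
  -- `x` is killed by `𝔪`
  have hkill : ∀ X ∈ 𝔪, X.map (algebraMap ℚ ℚ_[ℓ]) *ᵥ x = 0 := by
    intro X hX
    by_contra hne
    have hx0 : x ≠ 0 := by
      rintro rfl
      exact hne (Matrix.mulVec_zero _)
    obtain ⟨U, hU, hUx⟩ := hx
    have hY : IsTateEnd ρ (vecMulVec x (x ᵥ* qℓ)) := by
      refine ⟨U, hU, fun g hg => ?_⟩
      have h1 := h.similitude g
      rw [Matrix.mul_vecMulVec, Matrix.vecMulVec_mul, Matrix.vecMul_vecMul, hUx g hg]
      have h2 : x ᵥ* (qℓ * ρ g) = χ g • (x ᵥ* qℓ) := by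
        have h3 : (ρ g *ᵥ x) ᵥ* (qℓ * ρ g) = χ g ^ 2 • (x ᵥ* qℓ) := by
          rw [← Matrix.vecMul_transpose, Matrix.vecMul_vecMul, ← Matrix.mul_assoc, h1,
            Matrix.vecMul_smul]
        rw [hUx g hg, Matrix.smul_vecMul] at h3
        have h4 := congrArg (fun y => (χ g)⁻¹ • y) h3
        simp only [smul_smul] at h4
        rw [inv_mul_cancel₀ (chi_ne χ g), one_smul] at h4
        rw [h4]
        congr 1
        have := chi_ne χ g
        field_simp
      rw [h2]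
      ext i j
      simp only [Matrix.vecMulVec_apply, Pi.smul_apply, smul_eq_mul]
      ring
    have h1 := mem_ext_endo.1 (he _ hY) X hX
    have hs := skew_iff.2 (skew_map (k := ℚ_[ℓ]) (hm.skew X hX))
    rw [← hqℓ] at hs
    obtain ⟨y, hy⟩ : ∃ y, form qℓ x y ≠ 0 := by
      by_contra hcon
      push Not at hcon
      exact hx0 (form_nondeg h.symm h.nondeg x hcon)
    have h2 := congrArg (fun M => M *ᵥ y) h1
    simp only [Matrix.mul_vecMulVec, Matrix.vecMulVec_mul, Matrix.vecMulVec_mulVec,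
      op_smul_eq_smul] at h2
    rw [← Matrix.dotProduct_mulVec, Matrix.vecMul_vecMul, ← Matrix.dotProduct_mulVec,
      ← Matrix.mulVec_mulVec, ← form_apply, ← form_apply] at h2
    set Xl := X.map (algebraMap ℚ ℚ_[ℓ]) with hXl
    have h3 : Xl *ᵥ x = ((form qℓ x y)⁻¹ * form qℓ x (Xl *ᵥ y)) • x := by
      rw [mul_smul, ← h2, smul_smul, inv_mul_cancel₀ hy, one_smul]
    have h4 := hs x y
    rw [Matrix.toLin'_apply, Matrix.toLin'_apply, h3, map_smul, LinearMap.smul_apply,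
      smul_eq_mul] at h4
    have h5 : 2 * form qℓ x (Xl *ᵥ y) = 0 := by
      have h6 : (form qℓ x y)⁻¹ * form qℓ x (Xl *ᵥ y) * form qℓ x y = form qℓ x (Xl *ᵥ y) := by
        field_simp
      rw [h6] at h4
      linear_combination h4
    have h6 := (mul_eq_zero.1 h5).resolve_left two_ne_zero
    apply hne
    rw [h3, h6, mul_zero, zero_smul]
  let N : Submodule ℚ (n → ℚ) :=
    { carrier := {x | ∀ X ∈ 𝔪, X *ᵥ x = 0}
      zero_mem' := fun X _ => Matrix.mulVec_zero X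
      add_mem' := fun {a b} ha hb X hX => by rw [Matrix.mulVec_add, ha X hX, hb X hX, add_zero]
      smul_mem' := fun c a ha X hX => by rw [Matrix.mulVec_smul, ha X hX, smul_zero] }
  refine rat_nondeg (k := ℚ_[ℓ]) H.q N ?_ x ?_ ?_
  · intro y hy hyy
    refine H.anisotropic y ?_ (hyy y hy)
    -- `D` kills `y`
    have h1 : ∀ M ∈ ext ℂ 𝔪, M *ᵥ (fun i => ((y i : ℚ) : ℂ)) = 0 := by
      intro M hM
      refine ext_induction (p := fun M => M *ᵥ (fun i => ((y i : ℚ) : ℂ)) = 0) ?_ ?_ ?_ ?_ hM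
      · intro X hX
        have h2 := hy X hX
        funext i
        have h3 := congrFun h2 i
        simp only [Matrix.mulVec, dotProduct, Matrix.map_apply, Pi.zero_apply] at h3 ⊢
        rw [← Rat.cast_zero, ← h3]
        push_cast
        rfl
      · rw [Matrix.zero_mulVec]
      · intro a b ha hb
        rw [Matrix.add_mulVec, ha, hb, add_zero]
      · intro c a ha
        rw [Matrix.smul_mulVec, ha, smul_zero]
    have h2 := h1 _ hm.hodge
    rw [H.D_mulVec] at h2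
    have h3 := congrArg (fun z => H.v ⬝ᵥ H.qC *ᵥ z) h2
    simp only [Matrix.mulVec_smul, Matrix.mulVec_sub, dotProduct_smul, dotProduct_sub, H.v_v,
      H.v_sv, Matrix.mulVec_zero, dotProduct_zero, smul_eq_mul, mul_zero, zero_sub] at h3
    have hc := H.c_ne
    have h4 : H.c⁻¹ * -(H.v ⬝ᵥ H.qC *ᵥ (fun i => ((y i : ℚ) : ℂ)) * H.c) =
        -(H.v ⬝ᵥ H.qC *ᵥ (fun i => ((y i : ℚ) : ℂ))) := by
      field_simp
    rw [h4, neg_eq_zero] at h3
    exact h3
  · refine mem_span_of_map fun π X hX => ?_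
    have h1 := hkill X hX
    funext i
    have h2 := congrArg π (congrFun h1 i)
    simp only [Matrix.mulVec, dotProduct, Matrix.map_apply, Pi.zero_apply, map_sum, map_zero,
      ← Algebra.smul_def, map_smul, smul_eq_mul] at h2
    exact h2
  · intro y hy
    exact hxy _ (hm.classes y hy)

/-- over `ℚ` no semisimplicity is needed -/
theorem tate_part_rat (h : IsK3Type (H.q.map (algebraMap ℚ ℚ_[ℓ])) S χ Pol ρ)
    (hm : IsMotivicLie H χ ρ 𝔪) :
    Semisimple ρ ∧ tateLie χ ρ = ext ℚ_[ℓ] 𝔪 ↔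
      ∀ Y, IsTateEnd ρ Y → Y ∈ ext ℚ_[ℓ] (endo 𝔪) := by
  constructor
  · rintro ⟨h1, h2⟩
    exact (tate_part h hm h1).1 h2
  · intro h1
    have h2 := semisimple_of_end h hm h1
    exact ⟨h2, (tate_part h hm h2).2 h1⟩

end

end Pool.Agent.H851.KT
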