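import Mathlib
import Pool.Agent.H851.KT.Lie

/-!
# Tate endomorphisms commute on the transcendental part
-/

set_option autoImplicit false

namespace Pool.Agent.H851.KT

open Module TensorProduct Pool.Agent.Y114.RM Polynomial Matrix
open NumberField IsDedekindDomain
open Pool.Agent.H851.K3
open Pool.Agent.NH56.HY (GK tw tw_apply R chi_ne)
open Pool.Agent.H204R3.GP (FiniteIndexSemisimple)

section

variable {K : Type} [Field K] [NumberField K] {ℓ : ℕ} [hℓ : Fact ℓ.Prime] {n : Type}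
    [Fintype n] [DecidableEq n] {q : Matrix n n ℚ_[ℓ]} {S : Finset ℕ} {χ : GK K →* ℚ_[ℓ]}
    {Pol : HeightOneSpectrum (𝓞 K) → ℤ[X]} {ρ : GK K →* Matrix n n ℚ_[ℓ]}

omit [NumberField K] in
theorem tate_iff {g : GK K} {x : n → ℚ_[ℓ]} : ρ g *ᵥ x = χ g • x ↔ rep χ ρ g x = x := by
  rw [rep_apply, tw_apply, Matrix.smul_mulVec]
  constructor
  · intro h
    rw [h, smul_smul, inv_mul_cancel₀ (chi_ne χ g), one_smul]
  · intro h
    conv_rhs => rw [← h]
    rw [smul_smul, mul_inv_cancel₀ (chi_ne χ g), one_smul]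

theorem finiteIndex_of_open {U : Subgroup (GK K)} (hU : IsOpen (U : Set (GK K))) :
    U.FiniteIndex := by
  have hfin : Finite (GK K ⧸ U) := Subgroup.quotient_finite_of_isOpen _ hU
  exact Subgroup.finiteIndex_of_finite_quotient

/-- the form is nondegenerate on the Tate classes of a semisimple representation -/
theorem tate_nondeg (h : IsK3Type q S χ Pol ρ) (hss : Semisimple ρ) {x : n → ℚ_[ℓ]}
    (hx : IsTate χ ρ x) (hx0 : x ≠ 0) : ∃ y, IsTate χ ρ y ∧ form q x y ≠ 0 := by
  have hfss : FiniteIndexSemisimple (rep χ ρ) := finiteIndexSemisimple hss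
  obtain ⟨U, hU, hUx⟩ := hx
  have hUx' : ∀ g ∈ U, rep χ ρ g x = x := fun g hg => tate_iff.1 (hUx g hg)
  have hinv : ∀ g ∈ U, ∀ y, form q x (rep χ ρ g y) = form q x y := by
    intro g hg y
    conv_lhs => rw [← hUx' g hg]
    exact form_rep h g x y
  obtain ⟨W, hW, hc⟩ := hfss U (finiteIndex_of_open hU) (LinearMap.ker (form q x)) (by
    intro g hg y hy
    rw [LinearMap.mem_ker] at hy ⊢
    rw [hinv g hg, hy])
  have hex : ∃ y ∈ W, form q x y ≠ 0 := by
    by_contra hcon
    push Not at hcon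
    apply hx0
    refine form_nondeg h.symm h.nondeg x fun y => ?_
    have hy : y ∈ LinearMap.ker (form q x) ⊔ W := by
      rw [hc.sup_eq_top]
      trivial
    obtain ⟨a, ha, b, hb, rfl⟩ := Submodule.mem_sup.1 hy
    rw [map_add, LinearMap.mem_ker.1 ha, hcon b hb, add_zero]
  obtain ⟨y, hy, hxy⟩ := hex
  refine ⟨y, ⟨U, hU, fun g hg => ?_⟩, hxy⟩
  rw [tate_iff, ← sub_eq_zero]
  have h1 : rep χ ρ g y - y ∈ LinearMap.ker (form q x) ⊓ W := by
    refine Submodule.mem_inf.2 ⟨?_, W.sub_mem (hW g hg y hy) hy⟩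
    rw [LinearMap.mem_ker, map_sub, hinv g hg, sub_self]
  rw [hc.inf_eq_bot] at h1
  exact (Submodule.mem_bot _).1 h1

/-- **Theorem.** Tate endomorphisms commute on the transcendental part. -/
theorem com_main (h : IsK3Type q S χ Pol ρ) (hss : Semisimple ρ) {Y Y' : Matrix n n ℚ_[ℓ]}
    (hY : IsTateEnd ρ Y) (hY' : IsTateEnd ρ Y') {x : n → ℚ_[ℓ]} (hx : x ∈ orth q (tate χ ρ)) :
    (Y * Y') *ᵥ x = (Y' * Y) *ᵥ x := by
  have hfss : FiniteIndexSemisimple (rep χ ρ) := finiteIndexSemisimple hss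
  obtain ⟨U₁, hU₁, hU₁Y⟩ := hY
  obtain ⟨U₂, hU₂, hU₂Y⟩ := hY'
  set U₀ := U₁ ⊓ U₂ with hU₀def
  have hU₀ : IsOpen (U₀ : Set (GK K)) := hU₁.inter hU₂
  set E := Matrix.toLin' Y with hE
  set E' := Matrix.toLin' Y' with hE'
  have lift : ∀ {Z : Matrix n n ℚ_[ℓ]} {g : GK K}, Z * ρ g = ρ g * Z →
      rep χ ρ g * Matrix.toLin' Z = Matrix.toLin' Z * rep χ ρ g := by
    intro Z g hZ
    have h2 : tw χ ρ g * Z = Z * tw χ ρ g := by
      rw [tw_apply, Matrix.mul_smul, Matrix.smul_mul, hZ]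
    have h3 := congrArg Matrix.toLin' h2
    rwa [Matrix.toLin'_mul, Matrix.toLin'_mul] at h3
  have c1 : ∀ g ∈ U₀, rep χ ρ g * E = E * rep χ ρ g := fun g hg => lift (hU₁Y g hg.1)
  have c2 : ∀ g ∈ U₀, rep χ ρ g * E' = E' * rep χ ρ g := fun g hg => lift (hU₂Y g hg.2)
  set c : End ℚ_[ℓ] (n → ℚ_[ℓ]) := E * E' - E' * E with hc
  have c3 : ∀ g ∈ U₀, rep χ ρ g * c = c * rep χ ρ g := by
    intro g hg
    rw [hc, mul_sub, sub_mul, ← mul_assoc, c1 g hg, mul_assoc, c2 g hg, ← mul_assoc (rep χ ρ g),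
      c2 g hg, mul_assoc E' (rep χ ρ g), c1 g hg]
    simp only [mul_assoc]
  obtain ⟨Q, hQ1, hQ2, hQ3⟩ := Pool.Agent.R913.Adj.hasProj hfss U₀ (finiteIndex_of_open hU₀)
    (LinearMap.ker c) (by
      intro g hg y hy
      rw [LinearMap.mem_ker] at hy ⊢
      rw [← Module.End.mul_apply, ← c3 g hg, Module.End.mul_apply, hy, map_zero])
  set P : End ℚ_[ℓ] (n → ℚ_[ℓ]) := 1 - Q with hPdef
  have hPc : ∀ g ∈ U₀, rep χ ρ g * P = P * rep χ ρ g := by
    intro g hg
    have : Q * rep χ ρ g = rep χ ρ g * Q := LinearMap.ext fun y => hQ3 g hg y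
    rw [hPdef, mul_sub, sub_mul, this, mul_one, one_mul]
  have hPker : ∀ y, c y = 0 → P y = 0 := by
    intro y hy
    rw [hPdef, LinearMap.sub_apply, Module.End.one_apply, hQ2 y (LinearMap.mem_ker.2 hy), sub_self]
  have hPP : P * P = P := by
    have h1 : Q * Q = Q := LinearMap.ext fun y => hQ2 _ (hQ1 y)
    rw [hPdef, mul_sub, sub_mul, sub_mul, one_mul, mul_one, one_mul, h1, sub_self, sub_zero]
  obtain ⟨U, hU, hUU₀, hUn⟩ := unip_open h U₀ hU₀ (LinearMap.toMatrix' P) (by
    intro g hg hsep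
    have h1 : (rep χ ρ g - 1) ^ (Fintype.card n) * P = 0 := by
      refine unip_sep (hPc g hg) ?_
      intro γ hγ z hz
      refine eq_zero_of_pv _ fun π => ?_
      rw [Pool.Agent.Y114.RM.pv_bc]
      refine hPker _ ?_
      rw [← Pool.Agent.Y114.RM.pv_bc]
      -- `c` kills the eigenvectors
      have hcz : c.baseChange (PadicAlgCl ℓ) z = 0 := by
        set T : End (PadicAlgCl ℓ) (PadicAlgCl ℓ ⊗[ℚ_[ℓ]] (n → ℚ_[ℓ])) :=
          (rep χ ρ g).baseChange (PadicAlgCl ℓ) with hT
        have hfr := LinearMap.finrank_maxGenEigenspace_eq T γ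
        rw [charpoly_rep] at hfr
        by_cases hroot : (R χ ρ g).charpoly.IsRoot γ
        · rw [(hsep γ hroot hγ).simple] at hfr
          obtain ⟨v, hv, hv'⟩ := finrank_eq_one_iff'.1 hfr
          have hst : ∀ X : End ℚ_[ℓ] (n → ℚ_[ℓ]), rep χ ρ g * X = X * rep χ ρ g →
              ∃ a : PadicAlgCl ℓ, X.baseChange (PadicAlgCl ℓ) v.1 = a • v.1 := by
            intro X hX
            have hcomm : Commute T (X.baseChange (PadicAlgCl ℓ)) := by
              change T * _ = _ * T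
              rw [hT, ← bc_mul, hX, bc_mul]
            have h2 := Module.End.mapsTo_maxGenEigenspace_of_comm hcomm γ v.2
            obtain ⟨a, ha⟩ := hv' ⟨_, h2⟩
            exact ⟨a, (congrArg Subtype.val ha).symm⟩
          obtain ⟨a, ha⟩ := hst E (c1 g hg)
          obtain ⟨a', ha'⟩ := hst E' (c2 g hg)
          obtain ⟨d, hd⟩ := hv' ⟨z, hz⟩
          have hzv : z = d • v.1 := (congrArg Subtype.val hd).symm
          have h3 : c.baseChange (PadicAlgCl ℓ) v.1 = 0 := by
            rw [hc, LinearMap.baseChange_sub, bc_mul, bc_mul, LinearMap.sub_apply,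
              Module.End.mul_apply, Module.End.mul_apply, ha, ha', map_smul, map_smul, ha, ha',
              smul_smul, smul_smul, mul_comm, sub_self]
          rw [hzv, map_smul, h3, smul_zero]
        · rw [rootMultiplicity_eq_zero hroot] at hfr
          rw [Submodule.finrank_eq_zero.1 hfr] at hz
          rw [(Submodule.mem_bot _).1 hz, map_zero]
      rw [hcz, map_zero]
    apply Matrix.toLin'.injective
    rw [Matrix.toLin'_mul, Matrix.toLin'_pow, map_sub, Matrix.toLin'_one, Matrix.toLin'_toMatrix',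
      map_zero]
    exact h1)
  have hUf := finiteIndex_of_open hU
  have hfix := fixes hfss U hUf P hPP (fun g hg => hPc g (hUU₀ hg)) (Fintype.card n) (by
    intro g hg
    have h1 := congrArg Matrix.toLin' (hUn g hg)
    rw [Matrix.toLin'_mul, Matrix.toLin'_pow, map_sub, Matrix.toLin'_one, Matrix.toLin'_toMatrix',
      map_zero] at h1
    exact h1)
  -- `P x` is a Tate class orthogonal to all Tate classes
  have hPx : IsTate χ ρ (P x) := by
    refine ⟨U, hU, fun g hg => ?_⟩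
    rw [tate_iff]
    exact LinearMap.congr_fun (hfix g hg) x
  have hPx0 : P x = 0 := by
    by_contra hne
    obtain ⟨y, hy, hxy⟩ := tate_nondeg h hss hPx hne
    apply hxy
    -- the adjoint of `P`
    have hb := form_nondeg (q := q) h.symm h.nondeg
    have hadj : ∃ a, ∀ z, form q (P z) y = form q a z := by
      have hinj : Function.Injective (form q) := by
        rw [← LinearMap.ker_eq_bot, eq_bot_iff]
        intro x hx
        rw [Submodule.mem_bot]
        refine hb x fun y => ?_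
        rw [LinearMap.mem_ker.1 hx, LinearMap.zero_apply]
      let e : (n → ℚ_[ℓ]) ≃ₗ[ℚ_[ℓ]] Dual ℚ_[ℓ] (n → ℚ_[ℓ]) :=
        LinearMap.linearEquivOfInjective (form q) hinj Subspace.dual_finrank_eq.symm
      refine ⟨e.symm ((form q).flip y ∘ₗ P), fun z => ?_⟩
      have h1 := LinearMap.congr_fun (e.apply_symm_apply ((form q).flip y ∘ₗ P)) z
      exact h1.symm
    obtain ⟨a, ha⟩ := hadj
    obtain ⟨U₃, hU₃, hU₃y⟩ := hy
    have haT : IsTate χ ρ a := by
      refine ⟨U ⊓ U₃, hU.inter hU₃, fun g hg => ?_⟩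
      rw [tate_iff, ← sub_eq_zero]
      refine hb _ fun z => ?_
      have hgz : rep χ ρ g * P = P * rep χ ρ g := hPc g (hUU₀ hg.1)
      have e1 : form q (rep χ ρ g a) z = form q a z := by
        rw [form_rep' h, ← ha, ← ha]
        have e2 : P (rep χ ρ g⁻¹ z) = rep χ ρ g⁻¹ (P z) := by
          have := hPc g⁻¹ (U₀.inv_mem (hUU₀ hg.1))
          exact (LinearMap.congr_fun this z).symm
        rw [e2, form_rep' h, inv_inv, tate_iff.1 (hU₃y g hg.2)]
      rw [map_sub, LinearMap.sub_apply, e1, sub_self]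
    rw [ha]
    have h2 := hx a haT
    rw [← form_apply] at h2
    exact h2
  have hcx : c x = 0 := by
    have h1 : x = Q x := by
      have := hPx0
      rw [hPdef, LinearMap.sub_apply, Module.End.one_apply, sub_eq_zero] at this
      exact this
    rw [h1]
    exact LinearMap.mem_ker.1 (hQ1 x)
  rw [hc, LinearMap.sub_apply, sub_eq_zero, Module.End.mul_apply, Module.End.mul_apply, hE, hE',
    Matrix.toLin'_apply, Matrix.toLin'_apply, Matrix.toLin'_apply, Matrix.toLin'_apply,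
    Matrix.mulVec_mulVec, Matrix.mulVec_mulVec] at hcx
  exact hcx

end

end Pool.Agent.H851.KT
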